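import Pool.Agent.Lib.MP_127c84_nt.GsDiv

/-! The divergence of the series for exponents at most two. -/

namespace Pool.Agent.Lib.MP_127c84_nt

open Polynomial Filter Pool.Agent.Lib.MP_9227d9_nt.Mob

open scoped Classical

variable {k : Type} [Field k] [Fintype k]

/-- The term of the series. -/
noncomputable def term (e : ℕ → k[X]) (x : ℝ) (n : ℕ) : ℝ :=
  (1 : ℝ) / (((n : ℝ) + 3) * (Real.log (Real.log ((n : ℝ) + 3))) ^ x *
    ((Nat.nth (fun m => IsP (e m)) (n + 3) : ℝ) - Nat.nth (fun m => IsP (e m)) (n + 2)))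

namespace GsLow

open GsDiv

variable {e : ℕ → k[X]} {c : k[X] → ℕ}

theorem loglog_nonneg (n : ℕ) : 0 ≤ Real.log (Real.log ((n : ℝ) + 3)) := by
  refine Real.log_nonneg ?_
  rw [Real.le_log_iff_exp_le (by positivity)]
  have := Real.exp_one_lt_d9
  have : (0 : ℝ) ≤ n := n.cast_nonneg
  linarith

theorem term_nonneg (hI : (Set.ofPred fun m => IsP (e m)).Infinite) (x : ℝ) (n : ℕ) :
    0 ≤ term e x n := by
  have h1 : (Nat.nth (fun m => IsP (e m)) (n + 2) : ℝ) ≤ Nat.nth (fun m => IsP (e m)) (n + 3) := by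
    exact_mod_cast (Nat.nth_le_nth hI).2 (by omega)
  exact div_nonneg zero_le_one (mul_nonneg (mul_nonneg (by positivity)
    (Real.rpow_nonneg (loglog_nonneg n) _)) (sub_nonneg.2 h1))

/-- The term that belongs to a prime. -/
noncomputable def u (e : ℕ → k[X]) (c : k[X] → ℕ) (x : ℝ) (F : k[X]) : ℝ :=
  if 2 ≤ Nat.count (fun m => IsP (e m)) (c F) then
    term e x (Nat.count (fun m => IsP (e m)) (c F) - 2) else 0

theorem summable_u (H : Code e c) (hI : (Set.ofPred fun m => IsP (e m)).Infinite) {x : ℝ}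
    (hs : Summable (term e x)) : Summable fun N => ∑ F ∈ PrD k N, u e c x F := by
  have h0 : ∀ F, 0 ≤ u e c x F := fun F => by
    unfold u
    split_ifs
    · exact term_nonneg hI _ _
    · exact le_rfl
  refine summable_of_sum_range_le (c := ∑' n, term e x n)
    (fun N => Finset.sum_nonneg fun F _ => h0 F) fun M => ?_
  have h1 : ∑ N ∈ Finset.range M, ∑ F ∈ PrD k N, u e c x F = ∑ F ∈ PrL k M, u e c x F := by
    rw [← Finset.sum_fiberwise_of_maps_to (s := PrL k M) (g := natDegree) (t := Finset.range M)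
      fun p hp' => Finset.mem_range.2 (mem_PrL.1 hp').2]
    refine Finset.sum_congr rfl fun m hm => Finset.sum_congr ?_ fun _ _ => rfl
    ext p
    rw [Finset.mem_filter, mem_PrL, mem_PrD]
    exact ⟨fun h => ⟨⟨h.1, h.2 ▸ Finset.mem_range.1 hm⟩, h.2⟩, fun h => ⟨h.1.1, h.2⟩⟩
  rw [h1]
  unfold u
  rw [← Finset.sum_filter, ← Finset.sum_image (f := term e x)
    (g := fun F => Nat.count (fun m => IsP (e m)) (c F) - 2)]
  · exact hs.sum_le_tsum _ fun n _ => term_nonneg hI _ _
  · intro F hF G hG h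
    rw [Finset.mem_coe, Finset.mem_filter] at hF hG
    refine inj H (Nat.count_injective (p := fun m => IsP (e m)) ?_ ?_ ?_)
    · rw [H.ec]
      exact (mem_PrL.1 hF.1).1
    · rw [H.ec]
      exact (mem_PrL.1 hG.1).1
    · have h2 := hF.2
      have h3 := hG.2
      simp only at h
      omega

theorem le_u [CharP k 2] (H : Code e c) (hI : (Set.ofPred fun m => IsP (e m)).Infinite) {x : ℝ}
    (hx : x ≤ 2) : ∀ᶠ N : ℕ in atTop, ∀ F ∈ PrD k N,
      N / (16 * Real.log N ^ 2 * qR k ^ N) * (1 / gap e c F) ≤ u e c x F := by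
  have ht : Tendsto (fun m : ℕ => Real.log (Real.log m)) atTop atTop :=
    Real.tendsto_log_atTop.comp (Real.tendsto_log_atTop.comp tendsto_natCast_atTop_atTop)
  obtain ⟨m₀, hm₀⟩ := eventually_atTop.1 (ht.eventually_ge_atTop 1)
  filter_upwards [eventually_gt_atTop (Nat.nth (fun m => IsP (e m)) (m₀ + 2)),
    eventually_ge_atTop (Fintype.card k + 1)] with N h1 h2 F hF
  obtain ⟨hP, hd⟩ := mem_PrD.1 hF
  have hq := two_le_qR (k := k)
  have h3 : m₀ + 2 < Nat.count (fun m => IsP (e m)) (c F) := by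
    have := Nat.count_strict_mono (p := fun m => IsP (e m)) (Nat.nth_mem_of_infinite hI (m₀ + 2))
      (h1.trans_le (le_code H ⟨hP.1, hd⟩))
    rwa [Nat.count_nth_of_infinite hI] at this
  have h4 := count_le H hP hd
  have h5 := Nat.nth_count (p := fun m => IsP (e m)) (n := c F) (by rwa [H.ec])
  have hg := gap_pos H hI hP
  unfold u term
  unfold gap at hg ⊢
  rw [if_pos (by omega)]
  obtain ⟨n, hn⟩ : ∃ n, Nat.count (fun m => IsP (e m)) (c F) = n + 2 := ⟨_, (Nat.sub_add_cancel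
    (by omega)).symm⟩
  rw [hn] at h3 h4 h5 hg ⊢
  rw [Nat.add_sub_cancel, h5]
  have hN : qR k + 1 ≤ N := by unfold qR; exact_mod_cast h2
  have hN0 : (0 : ℝ) < N := by linarith
  have hl : 0 < Real.log N := Real.log_pos (by linarith)
  have h6 : (n : ℝ) + 3 ≤ (PrL k (N + 1)).card := by exact_mod_cast h4
  have h7 : (n : ℝ) + 3 ≤ 4 * qR k ^ N / N := by
    rw [le_div_iff₀' hN0]
    exact (mul_le_mul_of_nonneg_left h6 hN0.le).trans (mul_card_PrL_le N)
  have h8 : 1 ≤ Real.log (Real.log ((n : ℝ) + 3)) := by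
    have := hm₀ (n + 3) (by omega)
    exact_mod_cast this
  have h9 : Real.log (Real.log ((n : ℝ) + 3)) ≤ 2 * Real.log N := by
    have a1 : Real.log ((n : ℝ) + 3) ≤ Real.log (qR k ^ (N + 1)) :=
      Real.log_le_log (by positivity) (h6.trans (card_PrL_le _))
    have a2 := Real.log_le_sub_one_of_pos (qR_pos (k := k))
    rw [Real.log_pow] at a1
    push_cast at a1
    have a3 : Real.log ((n : ℝ) + 3) ≤ (N : ℝ) ^ 2 := by nlinarith
    have a4 := Real.log_le_log (Real.log_pos (by linarith [n.cast_nonneg (α := ℝ)])) a3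
    rw [Real.log_pow] at a4
    exact_mod_cast a4
  have h10 : Real.log (Real.log ((n : ℝ) + 3)) ^ x ≤ (2 * Real.log N) ^ 2 := by
    refine (Real.rpow_le_rpow_of_exponent_le h8 hx).trans ?_
    rw [Real.rpow_two]
    exact pow_le_pow_left₀ (by linarith) h9 2
  have h11 : 0 < Real.log (Real.log ((n : ℝ) + 3)) ^ x := Real.rpow_pos_of_pos (by linarith) _
  rw [← one_div_mul_one_div]
  refine mul_le_mul_of_nonneg_right ?_ (one_div_pos.2 hg).le
  refine le_trans (le_of_eq ?_) (one_div_le_one_div_of_le (by positivity)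
    (mul_le_mul h7 h10 h11.le (by positivity)))
  field_simp
  ring

end GsLow

theorem low [CharP k 2] (hU : StUni) (hT : StTri3) {e : ℕ → k[X]} {c : k[X] → ℕ} (H : Code e c)
    {x : ℝ} (hx : x ≤ 2) : ¬ Summable (term e x) := by
  intro hs
  have hI := GsDiv.infinite hU H
  obtain ⟨a, ha, hN⟩ := near_ge hU hT (GsDiv.inj H)
  have hq' : 2 ≤ Fintype.card k := Fintype.one_lt_card
  obtain ⟨L, hL⟩ : ∃ L, L = 512 * Fintype.card k := ⟨_, rfl⟩
  rw [← hL] at hN
  have hL1 : 1 < L := by omega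
  have hL2 : 0 < Real.log L := Real.log_pos (by exact_mod_cast hL1)
  refine GsDiv.not_summable (Summable.of_norm_bounded_eventually_nat
    ((GsLow.summable_u H hI hs).mul_left (128 * Real.log L / a)) ?_)
  filter_upwards [hN, GsLow.le_u H hI hx, eventually_ge_atTop (L ^ 14), eventually_ge_atTop 2]
    with N h1 h2 h3 h4
  have hN0 : (2 : ℝ) ≤ N := by exact_mod_cast h4
  have hl : 0 < Real.log N := Real.log_pos (by linarith)
  have hq := qR_pos (k := k)
  obtain ⟨J, hJ⟩ : ∃ J, J = Nat.log L N / 2 := ⟨_, rfl⟩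
  have j1 : 14 ≤ Nat.log L N := Nat.le_log_of_pow_le hL1 h3
  have j2 : (L ^ J) ^ 2 ≤ N := by
    rw [← pow_mul]
    exact (Nat.pow_le_pow_right (by omega) (by omega)).trans (Nat.pow_log_le_self L (by omega))
  have j3 : J ≤ N := (Nat.lt_pow_self hL1).le.trans ((Nat.le_self_pow (by norm_num) _).trans j2)
  have j4 : Real.log N ≤ 4 * ((J : ℝ) - 3) * Real.log L := by
    have a1 : N ≤ L ^ (2 * J + 2) := (Nat.lt_pow_succ_log_self hL1 N).le.trans
      (Nat.pow_le_pow_right (by omega) (by omega))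
    have a2 := Real.log_le_log (by linarith) (show (N : ℝ) ≤ (L : ℝ) ^ (2 * J + 2) by
      exact_mod_cast a1)
    have a3 : (7 : ℝ) ≤ J := by exact_mod_cast (by omega : 7 ≤ J)
    rw [Real.log_pow] at a2
    push_cast at a2
    nlinarith
  have s1 := GsDiv.sum_gap H hI j3 (by omega) fun j hj hj' => h1 j hj
    ((Nat.pow_le_pow_left (Nat.pow_le_pow_right (by omega) hj') 2).trans j2)
  have s2 : ∑ F ∈ PrD k N, 1 / GsDiv.gap e c F =
      qR k ^ N * avm N fun F => if Irreducible F then 1 / GsDiv.gap e c F else 0 := by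
    rw [← sum_MoD, ← Finset.sum_filter]
    refine Finset.sum_congr ?_ fun _ _ => rfl
    ext F
    rw [Finset.mem_filter, mem_PrD, mem_MoD]
    exact ⟨fun h => ⟨⟨h.1.1, h.2⟩, h.1.2⟩, fun h => ⟨⟨h.1.1, h.2⟩, h.1.2⟩⟩
  have s3 := Finset.sum_le_sum h2
  rw [← Finset.mul_sum, s2] at s3
  obtain ⟨A, hA⟩ : ∃ A, A = avm N fun F => if Irreducible F then 1 / GsDiv.gap e c F else 0 :=
    ⟨_, rfl⟩
  rw [← hA] at s1 s3
  have s4 : Real.log N / (4 * Real.log L) * (a / (N : ℝ) ^ 2) / 2 ≤ A := by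
    have : Real.log N / (4 * Real.log L) ≤ (J : ℝ) - 3 := by
      rw [div_le_iff₀ (by positivity)]
      linarith
    have := mul_le_mul_of_nonneg_right this (show 0 ≤ a / (N : ℝ) ^ 2 by positivity)
    linarith
  rw [Real.norm_of_nonneg (by positivity)]
  refine le_trans (le_of_eq ?_) (mul_le_mul_of_nonneg_left (le_trans (mul_le_mul_of_nonneg_left
    (mul_le_mul_of_nonneg_left s4 (by positivity)) (by positivity)) s3) (by positivity))
  field_simp
  ring

end Pool.Agent.Lib.MP_127c84_nt
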