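import Pool.Agent.Lib.MP_9227d9_nt.TwDefs2

/-!
Reciprocal gaps between irreducible polynomials in characteristic two (statements of the modules).
-/

namespace Pool.Agent.Lib.MP_127c84_nt

open Polynomial Pool.Agent.Lib.MP_9227d9_nt.Mob

open scoped Classical

/-- Uni: a lower bound for prime pairs that is uniform in the shift. -/
def StUni : Prop :=
  ∀ (k : Type) [Field k] [Fintype k] [CharP k 2], ∃ c : ℝ, 0 < c ∧ ∀ᶠ n : ℕ in Filter.atTop,
    ∀ h : k[X], h ≠ 0 → X * (X + 1) ∣ h → 2 ^ h.natDegree ≤ n → c ≤ (n : ℝ) ^ 2 * avm n (tw h)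

/-- Tri3: an upper bound for prime triples that is uniform in the shifts. -/
def StTri3 : Prop :=
  ∀ (k : Type) [Field k] [Fintype k] [CharP k 2], ∃ C : ℝ, 0 ≤ C ∧ ∀ (n j : ℕ) (h h' : k[X]),
    4 ≤ j → j ≤ n / 32 → h ≠ 0 → h' ≠ 0 → h ≠ h' → h.natDegree < j → h'.natDegree < j →
      (n : ℝ) ^ 3 * avm n (fun F : k[X] =>
        if Irreducible F ∧ Irreducible (F + h) ∧ Irreducible (F + h') then 1 else 0) ≤ C * 512 ^ j

end Pool.Agent.Lib.MP_127c84_nt
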