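import Pool.Agent.Lib.MP_9227d9_nt.TwLim
import Pool.Agent.Lib.MP_127c84_nt.GsDefs

/-! The lower bound for prime pairs, uniformly in the shift. -/

namespace Pool.Agent.Lib.MP_127c84_nt

open Polynomial Filter Topology Pool.Agent.Lib.MP_9227d9_nt.Mob

open scoped Classical

namespace GsUni

open TwLim

theorem key (hC : StCore2) (hK : StK2) (hL : StLine) (hM : StMM) (hDe : StDe)
    (k : Type) [Field k] [Fintype k] [CharP k 2] {ε : ℝ} (hε : 0 < ε)
    (hε' : ε ≤ 1 / 100) : ∃ s : ℕ, 16 ≤ s ∧ ∀ᶠ τ : ℕ in atTop, ∀ n : ℕ, 48000 * (s * τ) ≤ n →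
      n ≤ 96000 * s * τ → ∀ h : k[X], h ≠ 0 → Adm h → h.natDegree ≤ τ →
      |(n : ℝ) ^ 2 * avm n (tw h) - Pi1 k (12 * τ) ^ 2 / Pi2 h (12 * τ)| ≤
        301 * (Pi1 k (12 * τ) ^ 2 / Pi2 h (12 * τ)) * ε + ε := by
  obtain ⟨s, hs, hs'⟩ := exists_s hε
  refine ⟨s, hs, ?_⟩
  obtain ⟨W, hW⟩ := exists_nat_ge (((8000 * s : ℕ) : ℝ) ^ 3 / ε + 1)
  have hW0 : (0 : ℝ) ≤ ((8000 * s : ℕ) : ℝ) ^ 3 / ε := by positivity
  have hW1 : 1 ≤ W := by exact_mod_cast (by linarith : (1 : ℝ) ≤ W)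
  obtain ⟨C', δ, hC', hδ, hL'⟩ := hL (96000 * s)
  obtain ⟨θ, hθ, H3⟩ := third (two_le_qR (k := k)) hC' hδ hW1 hε
  obtain ⟨C, hK'⟩ := hK k (96000 * s) θ hθ
  obtain ⟨N, hN⟩ := eventually_atTop.1 (small_lin (two_le_qR (k := k)) hε)
  filter_upwards [H3 C, eventually_ge_atTop N, eventually_ge_atTop W, eventually_ge_atTop 2,
    eventually_ge_atTop ((96000 * s) ^ 2)] with τ ⟨t1, t2⟩ t3 t4 t5 t7 n hn hn' h h0 ha t6
  obtain ⟨K, hK1, hK2⟩ := hK' τ (by omega)
  let P : Par k := ⟨h, τ, s, 96000 * s, n, h0, ha, t6, t5, hs, hn, hn', t7⟩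
  have hq := qR_pos (k := k)
  have core := hC k P K _ (τ / W) hK2 (hL' k τ (by omega)) (by positivity) t1
  have hst : 16 * τ ≤ s * τ := Nat.mul_le_mul_right τ hs
  have e1 : s * (12 * τ) = 12 * (s * τ) := by ring
  have e2 : (2 * s + 1) * (12 * τ) = 24 * (s * τ) + 12 * τ := by ring
  have e3 : 96000 * s * τ = 96000 * (s * τ) := by ring
  obtain ⟨-, d1, d2⟩ := hDe k h s (12 * τ) n ha (by omega) hs (by omega)
  obtain ⟨m1, m2⟩ := hM k (12 * τ) s (n / 2 + 10 * (24 * (s * τ))) n (by omega) hs (by omega)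
    (by omega) (by omega)
  have he := eps_nonneg s
  have he' : eps s ≤ ε :=
    (le_mul_of_one_le_left he (one_le_pow₀ (by norm_num))).trans hs'
  have hn1 : n ≤ 8000 * s * (12 * τ) := hn'.trans_eq (by ring)
  have hn2 : n + 1 ≤ 2 * (8000 * s * (12 * τ)) := by omega
  have hn3 : n / (12 * τ) ≤ 8000 * s := Nat.div_le_of_le_mul (by rwa [mul_comm])
  have hw : (W : ℝ) * (2 * ((τ / W : ℕ) : ℝ) + 1) ≤ ((12 * τ : ℕ) : ℝ) := by
    have := Nat.mul_div_le τ W
    exact_mod_cast (by rw [mul_add, mul_left_comm]; omega : W * (2 * (τ / W) + 1) ≤ 12 * τ)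
  have main := arith (c := ((8000 * s : ℕ) : ℝ)) (ε := ε) P.one_le_G d1 d2
    (by exact_mod_cast (by omega : 0 < 12 * τ)) m1 m2 he he'
    (by have := hN (n / 2 + 10 * (24 * (s * τ))) (by omega); linarith) hε' (Nat.cast_nonneg n)
    (by exact_mod_cast hn1) (by exact_mod_cast hn2) (by positivity)
    (by
      have h1 : ((8000 * s : ℕ) : ℝ) ^ 3 ≤ ε * W := by
        rw [← div_le_iff₀' hε]; linarith
      calc _ ≤ ε * W * (2 * ((τ / W : ℕ) : ℝ) + 1) := by gcongr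
        _ ≤ _ := by rw [mul_assoc]; gcongr)
    (by positivity)
    ((mul_le_mul_of_nonneg_right (pow_bound (by omega) hn3) he).trans hs') le_rfl core
  have t11 := t2 K (by linarith [hK2.ten_le]) hK1
  exact main.trans (add_le_add le_rfl t11)

variable {k : Type} [Field k] [Fintype k]

theorem om_le {h g : k[X]} (hd : g ∣ h) (p : k[X]) : om h p ≤ om g p := by
  unfold om
  by_cases h1 : p ∣ g
  · rw [if_pos h1, if_pos (h1.trans hd)]
  · rw [if_neg h1]
    split_ifs <;> norm_num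

theorem adm_of_dvd {h g : k[X]} (hg : Adm g) (hd : g ∣ h) : Adm h := fun p hp' =>
  le_trans (by linarith [om_le hd p]) (hg p hp')

theorem Pi2_le {h g : k[X]} (hg : Adm g) (hd : g ∣ h) (z : ℕ) : Pi2 h z ≤ Pi2 g z := by
  have ha := adm_of_dvd hg hd
  refine Finset.prod_le_prod (fun p hp' => ?_) fun p hp' => ?_
  · have := ha.hp_pos (Finset.mem_filter.1 hp').2
    linarith
  · have h1 := (Finset.mem_filter.1 hp').2
    have h2 := om_le hd p
    have h3 := hg p h1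
    have h4 : 1 ≤ om h p := by unfold om; split_ifs <;> norm_num
    unfold hp
    have h5 : 0 < Nm p - om g p := by linarith
    exact add_le_add le_rfl (div_le_div₀ (by linarith) h2 h5 (by linarith))

theorem Pi2_pos {h : k[X]} (ha : Adm h) (z : ℕ) : 0 < Pi2 h z :=
  Finset.prod_pos fun p hp' => by
    have := ha.hp_pos (Finset.mem_filter.1 hp').2
    linarith

end GsUni

theorem stUni (hC : StCore2) (hK : StK2) (hL : StLine) (hM : StMM) (hDe : StDe) (hS : StSing) :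
    StUni := by
  intro k _ _ _
  have g0 : (X * (X + 1) : k[X]) ≠ 0 :=
    mul_ne_zero X_ne_zero (by simpa using X_add_C_ne_zero (1 : k))
  obtain ⟨S, -, h2, -, h4⟩ := hS k _ g0
  have hg := h4 fun _ => dvd_rfl
  obtain ⟨hS0, hT⟩ := h2 hg
  obtain ⟨ε, hε, e1, e2⟩ : ∃ ε : ℝ, 0 < ε ∧ ε ≤ 1 / 1000 ∧ ε ≤ S / 8 :=
    ⟨min (1 / 1000) (S / 8), by positivity, min_le_left _ _, min_le_right _ _⟩
  obtain ⟨s, hs, H⟩ := GsUni.key hC hK hL hM hDe k hε (by linarith)
  refine ⟨S / 8, by positivity, ?_⟩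
  have ht := Nat.tendsto_div_const_atTop (n := 48000 * s) (by omega)
  have hT' : Tendsto (fun τ : ℕ => Pi1 k (12 * τ) ^ 2 / Pi2 (X * (X + 1) : k[X]) (12 * τ)) atTop
      (𝓝 S) := hT.comp (tendsto_id.const_mul_atTop' (by norm_num))
  have hpow : ∀ᶠ τ : ℕ in atTop, 96000 * s * τ < 2 ^ τ := by
    have h1 := (tendsto_pow_const_div_const_pow_of_one_lt 1 (r := 2) (by norm_num)).const_mul
      ((96000 * s : ℕ) : ℝ)
    rw [mul_zero] at h1
    filter_upwards [h1.eventually (gt_mem_nhds one_pos)] with τ hτ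
    rw [← mul_div_assoc, div_lt_one (by positivity), pow_one] at hτ
    exact_mod_cast hτ
  filter_upwards [ht.eventually H, ht.eventually_ge_atTop 1, ht.eventually hpow,
    ht.eventually (hT'.eventually (lt_mem_nhds (half_lt_self hS0)))] with n hn hn' hp2 hR h h0 hd hdeg
  have b1 : 48000 * (s * (n / (48000 * s))) ≤ n := by
    rw [← mul_assoc]
    exact Nat.mul_div_le n _
  have b2 : n ≤ 96000 * s * (n / (48000 * s)) := by
    have h3 := Nat.lt_mul_div_succ n (show 0 < 48000 * s by omega)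
    have h4 := Nat.mul_le_mul_left (48000 * s) hn'
    rw [show 96000 * s * (n / (48000 * s)) = 2 * (48000 * s * (n / (48000 * s))) by ring]
    rw [mul_add] at h3
    omega
  have b3 : h.natDegree ≤ n / (48000 * s) :=
    ((Nat.pow_lt_pow_iff_right (by norm_num : 1 < 2)).1 ((hdeg.trans b2).trans_lt hp2)).le
  have ha := GsUni.adm_of_dvd hg hd
  have main := abs_le.1 (hn n b1 b2 h h0 ha b3)
  have b4 : Pi1 k (12 * (n / (48000 * s))) ^ 2 / Pi2 (X * (X + 1) : k[X]) (12 * (n / (48000 * s))) ≤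
      Pi1 k (12 * (n / (48000 * s))) ^ 2 / Pi2 h (12 * (n / (48000 * s))) :=
    div_le_div_of_nonneg_left (sq_nonneg _) (GsUni.Pi2_pos ha _) (GsUni.Pi2_le hg hd _)
  obtain ⟨R, hR'⟩ : ∃ R, R = Pi1 k (12 * (n / (48000 * s))) ^ 2 / Pi2 h (12 * (n / (48000 * s))) :=
    ⟨_, rfl⟩
  rw [← hR'] at main b4
  have b5 : S / 2 ≤ R := hR.le.trans b4
  have b6 : 301 * R * ε ≤ R / 2 := by nlinarith
  linarith [main.1]

end Pool.Agent.Lib.MP_127c84_nt
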