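import Pool.Agent.Lib.MP_9227d9_nt.TwDefs2

/-! Upper bounds for prime pairs in progressions and for prime triples. -/

namespace Pool.Agent.Lib.MP_127c84_nt

open Polynomial Filter Topology Pool.Agent.Lib.MP_9227d9_nt.Mob

open scoped Classical

variable {k : Type} [Field k] [Fintype k]

theorem sum_PrL (L : ℕ) (f : ℕ → ℝ) :
    ∑ p ∈ PrL k L, f p.natDegree = ∑ m ∈ Finset.range L, (PrD k m).card * f m := by
  rw [← Finset.sum_fiberwise_of_maps_to (g := natDegree) (t := Finset.range L)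
    fun p hp => Finset.mem_range.2 (mem_PrL.1 hp).2]
  refine Finset.sum_congr rfl fun m hm => ?_
  have e : (PrL k L).filter (fun p => p.natDegree = m) = PrD k m := by
    ext p
    rw [Finset.mem_filter, mem_PrL, mem_PrD]
    exact ⟨fun h => ⟨h.1.1, h.2⟩, fun h => ⟨⟨h.1, h.2 ▸ Finset.mem_range.1 hm⟩, h.2⟩⟩
  rw [e, Finset.sum_congr rfl fun p hp => by rw [(mem_PrD.1 hp).2], Finset.sum_const, nsmul_eq_mul]

theorem PrD_zero : PrD k 0 = ∅ :=
  Finset.eq_empty_of_forall_notMem fun _ hp => (mem_PrD.1 hp).1.natDegree_pos.ne' (mem_PrD.1 hp).2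

theorem loc_le {p : k[X]} (hp : IsP p) : 1 + 1 / (Nm p - 1) ≤ Real.exp (2 * (1 / Nm p)) := by
  have h1 := (one_div_Nm_sub_le hp).2
  have h2 := Real.add_one_le_exp (2 * (1 / Nm p))
  rw [mul_one_div] at h2 ⊢
  linarith

/-- The primes with degree in `[j, z)`. -/
noncomputable def Tz (k : Type) [Field k] [Fintype k] (j z : ℕ) : Finset k[X] :=
  (PrL k z).filter fun p => j ≤ p.natDegree

theorem mem_Tz {j z : ℕ} {p : k[X]} :
    p ∈ Tz k j z ↔ IsP p ∧ p.natDegree < z ∧ j ≤ p.natDegree := by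
  rw [Tz, Finset.mem_filter, mem_PrL, and_assoc]

theorem one_sub_pos {p : k[X]} (hp : IsP p) : 0 < 1 - 1 / Nm p := by
  have := hp.two_le_Nm
  rw [sub_pos, div_lt_one (Nm_pos p)]
  linarith

theorem pow_le_Nm {p : k[X]} {j : ℕ} (h : j ≤ p.natDegree) : (2 : ℝ) ^ j ≤ Nm p :=
  (pow_le_pow_left₀ two_pos.le two_le_qR j).trans (pow_le_pow_right₀ one_le_qR h)

/-- The majorant of the singular series. -/
noncomputable def Rp (h : k[X]) : ℝ := ∏ p ∈ pf h, (1 + 1 / (Nm p - 1))

variable [CharP k 2]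

theorem sum_inv_le (L : ℕ) : ∑ p ∈ PrL k L, 1 / Nm p ≤ ∑ m ∈ Finset.range L, 1 / (m : ℝ) := by
  refine (sum_PrL L fun m => 1 / qR k ^ m).trans_le (Finset.sum_le_sum fun m _ => ?_)
  rcases Nat.eq_zero_or_pos m with rfl | hm
  · simp [PrD_zero]
  · rw [mul_one_div, div_le_div_iff₀ (qR_pow_pos m) (by exact_mod_cast hm), one_mul, mul_comm]
    exact card_PrD_le m

theorem harm_le (L y : ℕ) (hy : 1 ≤ y) :
    ∑ m ∈ Finset.range L, 1 / (m : ℝ) ≤ y + L / (y : ℝ) := by
  have hy' : (0 : ℝ) < y := by exact_mod_cast hy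
  calc ∑ m ∈ Finset.range L, 1 / (m : ℝ)
      ≤ ∑ m ∈ Finset.range L, ((if m < y then 1 else 0) + 1 / (y : ℝ)) := by
        refine Finset.sum_le_sum fun m _ => ?_
        have h0 : 0 < 1 / (y : ℝ) := by positivity
        split_ifs with h
        · have : 1 / (m : ℝ) ≤ 1 := by
            rw [one_div]
            exact Nat.cast_inv_le_one m
          linarith
        · rw [zero_add]
          exact one_div_le_one_div_of_le hy' (by exact_mod_cast not_lt.1 h)
    _ ≤ y + L / (y : ℝ) := by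
        rw [Finset.sum_add_distrib, Finset.sum_boole, Finset.sum_const, Finset.card_range,
          nsmul_eq_mul, mul_one_div]
        refine add_le_add_left ?_ _
        have : ((Finset.range L).filter fun m => m < y) ⊆ Finset.range y := fun m hm =>
          Finset.mem_range.2 (Finset.mem_filter.1 hm).2
        exact_mod_cast (Finset.card_le_card this).trans_eq (Finset.card_range y)

theorem Pi1_le (j : ℕ) : Pi1 k j ≤ Real.exp (2 * (j + 1)) := by
  have h1 : Pi1 k j ≤ ∏ p ∈ PrL k j, Real.exp (2 * (1 / Nm p)) := by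
    refine Finset.prod_le_prod (fun p hp => ?_) fun p hp => ?_
    · have := (mem_PrL.1 hp).1.two_le_Nm
      exact div_nonneg (by linarith) (by linarith)
    · have h2 := (mem_PrL.1 hp).1.two_le_Nm
      refine le_trans (le_of_eq ?_) (loc_le (mem_PrL.1 hp).1)
      have : Nm p - 1 ≠ 0 := by linarith
      field_simp
      ring
  refine h1.trans ?_
  rw [← Real.exp_sum, ← Finset.mul_sum, Real.exp_le_exp]
  have h2 := (sum_inv_le (k := k) j).trans (harm_le j 1 le_rfl)
  simp only [Nat.cast_one, div_one] at h2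
  linarith

theorem prod_Tz (hM : StMM) {j z : ℕ} (hz : 1 ≤ z) (hj : j ≤ z) :
    ∏ p ∈ Tz k j z, (1 - 1 / Nm p) ≤ Real.exp (2 * (j + 1)) / z := by
  have h1 := (hM k z 16 (2 * (16 * z)) (2 * (16 * z)) hz le_rfl le_rfl le_rfl (by omega)).1
  have h2 : (PrL k z).filter (fun p => ¬ j ≤ p.natDegree) = PrL k j := by
    ext p
    rw [Finset.mem_filter, mem_PrL, mem_PrL, not_le]
    exact ⟨fun h => ⟨h.1.1, h.2⟩, fun h => ⟨⟨h.1, h.2.trans_le hj⟩, h.2⟩⟩
  have h3 : (∏ p ∈ Tz k j z, (1 - 1 / Nm p)) * Pi1 k z = Pi1 k j := by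
    rw [Pi1, ← Finset.prod_filter_mul_prod_filter_not (PrL k z) fun p => j ≤ p.natDegree, h2,
      ← mul_assoc, ← Tz, ← Finset.prod_mul_distrib, Finset.prod_eq_one, one_mul, Pi1]
    intro p hp
    have h4 := (mem_Tz.1 hp).1.two_le_Nm
    have h5 : Nm p - 1 ≠ 0 := by linarith
    have h6 : Nm p ≠ 0 := by linarith
    field_simp
  have h4 : 0 ≤ ∏ p ∈ Tz k j z, (1 - 1 / Nm p) :=
    Finset.prod_nonneg fun p hp => (one_sub_pos (mem_Tz.1 hp).1).le
  rw [le_div_iff₀ (by exact_mod_cast hz)]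
  exact (mul_le_mul_of_nonneg_left h1 h4).trans (h3.trans_le (Pi1_le j))

theorem Rp_le {ε : ℝ} (hε : 0 < ε) :
    ∃ C > 0, ∀ h : k[X], h ≠ 0 → Rp h ≤ C * ((h.natDegree : ℝ) + 1) ^ ε := by
  obtain ⟨y, hy⟩ := exists_nat_ge (4 / ε + 1)
  have h0 : 0 < 4 / ε := by positivity
  have hy1 : 1 ≤ y := by exact_mod_cast (by linarith : (1 : ℝ) ≤ y)
  have hy' : (1 : ℝ) ≤ y := by exact_mod_cast hy1
  refine ⟨Real.exp (2 * y + 4), Real.exp_pos _, fun h hh => ?_⟩
  set d := h.natDegree with hd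
  set L := Nat.log 2 (d + 1) + 1 with hL
  have h1 : Rp h ≤ Real.exp (2 * ∑ p ∈ pf h, 1 / Nm p) := by
    rw [Finset.mul_sum, Real.exp_sum]
    exact Finset.prod_le_prod
      (fun p hp => by linarith [(one_div_Nm_sub_le ((mem_pf hh).1 hp).1).1])
      fun p hp => loc_le ((mem_pf hh).1 hp).1
  have h2 : ((d : ℝ) + 1) ≤ 2 ^ L := by
    exact_mod_cast (Nat.lt_pow_succ_log_self one_lt_two (d + 1)).le
  have h3 : ∑ p ∈ (pf h).filter (fun p => ¬ p.natDegree < L), 1 / Nm p ≤ 1 := by
    refine (Finset.sum_le_card_nsmul _ _ (1 / 2 ^ L) fun p hp => one_div_le_one_div_of_le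
      (by positivity) (pow_le_Nm (not_lt.1 (Finset.mem_filter.1 hp).2))).trans ?_
    have h4 : (((pf h).filter fun p => ¬ p.natDegree < L).card : ℝ) ≤ d := by
      exact_mod_cast (Finset.card_filter_le _ _).trans (card_pf_le hh)
    rw [nsmul_eq_mul, mul_one_div, div_le_one (by positivity)]
    linarith
  have h4 : ∑ p ∈ (pf h).filter (fun p => p.natDegree < L), 1 / Nm p ≤ y + L / (y : ℝ) := by
    refine le_trans (Finset.sum_le_sum_of_subset_of_nonneg (fun p hp => ?_) fun p _ _ => ?_)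
      ((sum_inv_le (k := k) L).trans (harm_le L y hy1))
    · exact mem_PrL.2 ⟨((mem_pf hh).1 (Finset.mem_filter.1 hp).1).1, (Finset.mem_filter.1 hp).2⟩
    · exact one_div_nonneg.2 (Nm_pos p).le
  have h5 : (L : ℝ) ≤ 2 * Real.log (d + 1) + 1 := by
    have h6 : (2 : ℝ) ^ Nat.log 2 (d + 1) ≤ d + 1 := by
      exact_mod_cast Nat.pow_log_le_self 2 (Nat.succ_ne_zero d)
    have h7 := Real.log_le_log (by positivity) h6
    have h8 := Real.log_two_gt_d9
    have h9 : (0 : ℝ) ≤ Nat.log 2 (d + 1) := Nat.cast_nonneg _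
    rw [Real.log_pow] at h7
    rw [hL]
    push_cast
    nlinarith
  have h6 : 0 ≤ Real.log (d + 1) := Real.log_nonneg (by linarith [Nat.cast_nonneg (α := ℝ) d])
  have h7 : (L : ℝ) / y ≤ Real.log (d + 1) * ε / 2 + 1 := by
    have h8 : 4 ≤ y * ε := by
      rw [← div_le_iff₀ hε]
      linarith
    rw [div_le_iff₀ (by linarith)]
    nlinarith
  rw [← Finset.sum_filter_add_sum_filter_not (pf h) fun p => p.natDegree < L] at h1
  rw [Real.rpow_def_of_pos (by positivity), ← Real.exp_add]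
  refine h1.trans (Real.exp_le_exp.2 ?_)
  linarith

omit [Fintype k] [CharP k 2] in
theorem not_dvd_of_irr {p F : k[X]} (hp : IsP p) (hF : Irreducible F)
    (h : p.natDegree < F.natDegree) : ¬ p ∣ F := fun hd =>
  h.ne (natDegree_eq_of_degree_eq (degree_eq_degree_of_associated (hp.2.associated_of_dvd hF hd)))

/-- The constant of the sieve. -/
noncomputable def cS : ℝ := 1 + eps 16

theorem cS_pos : 0 < cS := by
  unfold cS eps
  positivity

theorem div_le_of_32 {n : ℕ} (hn : 32 ≤ n) (a : ℝ) (ha : 0 ≤ a) :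
    a / ((n / 32 : ℕ) : ℝ) ≤ 64 * a / n := by
  have h1 : (n : ℝ) ≤ 64 * ((n / 32 : ℕ) : ℝ) := by exact_mod_cast (by omega : n ≤ 64 * (n / 32))
  have h2 : (0 : ℝ) < n := by exact_mod_cast (by omega : 0 < n)
  rw [div_le_div_iff₀ (by linarith) h2]
  nlinarith

theorem tri_up (hS : StSel) (hM : StMM) {n j : ℕ} {h h' : k[X]} (hj : 4 ≤ j) (hn : j ≤ n / 32)
    (h0 : h ≠ 0) (h0' : h' ≠ 0) (hne : h ≠ h') (hd : h.natDegree < j) (hd' : h'.natDegree < j) :
    avm n (fun F => if Irreducible F ∧ Irreducible (F + h) ∧ Irreducible (F + h') then 1 else 0) ≤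
      cS * (64 * Real.exp (2 * (j + 1)) / n) ^ 3 := by
  have h1 := hS k (Tz k j (n / 32)) (fun p F => p ∣ F ∨ p ∣ F + h ∨ p ∣ F + h')
    (fun p => 3 / Nm p) 16 (n / 32) n (by omega) le_rfl (by omega) (fun p hp => by
      obtain ⟨g1, g2, g3⟩ := mem_Tz.1 hp
      have g4 : (16 : ℝ) ≤ Nm p := by
        have := pow_le_Nm (k := k) (hj.trans g3)
        linarith
      have n1 := g1.not_dvd_of_lt h0 (hd.trans_le g3)
      have n2 := g1.not_dvd_of_lt h0' (hd'.trans_le g3)
      have n3 := g1.not_dvd_of_lt (sub_ne_zero.2 hne)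
        (((natDegree_sub_le _ _).trans_lt (max_lt hd hd')).trans_le g3)
      refine ⟨g1, g2, fun F t => ?_, ?_, ?_, ?_⟩
      · simp only [add_right_comm F (p * t), dvd_add_left (dvd_mul_right p t)]
      · have e : ∀ F : k[X], (if p ∣ F ∨ p ∣ F + h ∨ p ∣ F + h' then (1 : ℝ) else 0) =
            (if p ∣ 0 + 1 * F then 1 else 0) + ((if p ∣ h + 1 * F then 1 else 0) +
              if p ∣ h' + 1 * F then 1 else 0) := by
          intro F
          rw [zero_add, one_mul, add_comm h, add_comm h']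
          by_cases a1 : p ∣ F <;> by_cases a2 : p ∣ F + h <;> by_cases a3 : p ∣ F + h' <;>
            first
            | exact absurd ((dvd_add_right a1).1 a2) n1
            | exact absurd ((dvd_add_right a1).1 a3) n2
            | exact absurd (by simpa using dvd_sub a2 a3) n3
            | simp [a1, a2, a3]
        have e1 := fun a => avg_dvd (n := p.natDegree) g1.1.ne_zero le_rfl isCoprime_one_left a
        refine (avg_congr fun F _ => by convert e F).trans ?_
        rw [avg_add, avg_add, e1, e1, e1]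
        ring
      · rw [div_lt_one (Nm_pos p)]
        linarith
      · have g5 : 0 < Nm p - 3 := by linarith
        have g6 := Nm_pos p
        rw [show 3 / Nm p / (1 - 3 / Nm p) = 3 / (Nm p - 3) by field_simp,
          div_le_div_iff₀ g5 g6]
        linarith)
  have h2 : ∏ p ∈ Tz k j (n / 32), (1 - 3 / Nm p) ≤
      (∏ p ∈ Tz k j (n / 32), (1 - 1 / Nm p)) ^ 3 := by
    rw [← Finset.prod_pow]
    refine Finset.prod_le_prod (fun p hp => ?_) fun p hp => ?_
    · have := pow_le_Nm (k := k) (hj.trans (mem_Tz.1 hp).2.2)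
      rw [sub_nonneg, div_le_one (Nm_pos p)]
      linarith
    · have g1 := one_sub_pos (mem_Tz.1 hp).1
      have g2 : 0 < 1 / Nm p := one_div_pos.2 (Nm_pos p)
      rw [show 3 / Nm p = 3 * (1 / Nm p) by ring]
      nlinarith [mul_pos g2 g2]
  have h3 := (prod_Tz (k := k) hM (by omega) hn).trans
    (div_le_of_32 (by omega) _ (Real.exp_pos _).le)
  have h4 := pow_le_pow_left₀
    (Finset.prod_nonneg fun p hp => (one_sub_pos (mem_Tz.1 hp).1).le) h3 3
  refine le_trans (avm_mono fun F hF => ?_)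
    (h1.trans (mul_le_mul_of_nonneg_left (h2.trans h4) cS_pos.le))
  split_ifs with a1 a2 a3
  · exact le_rfl
  · refine absurd (fun p hp => ?_) a2
    obtain ⟨g1, g2, -⟩ := mem_Tz.1 hp
    have e1 := (hF.add_of_lt (h := h) (by omega)).2
    have e2 := (hF.add_of_lt (h := h') (by omega)).2
    have e3 := hF.2
    rintro (b | b | b)
    · exact not_dvd_of_irr g1 a1.1 (by omega) b
    · exact not_dvd_of_irr g1 a1.2.1 (by omega) b
    · exact not_dvd_of_irr g1 a1.2.2 (by omega) b
  · exact zero_le_one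
  · exact le_rfl

omit [Fintype k] [CharP k 2] in
theorem MD_join {n L : ℕ} {g c : k[X]} (hg : MD n g) (hc : c.degree < L) :
    MD (L + n) (X ^ L * g + c) := by
  have h1 : MD (L + n) (X ^ L * g) :=
    ⟨(monic_X_pow L).mul hg.1, by rw [(monic_X_pow L).natDegree_mul hg.1, natDegree_X_pow, hg.2]⟩
  have h2 : (X ^ L * g).degree = ((L + n : ℕ) : WithBot ℕ) := by
    rw [degree_eq_natDegree h1.1.ne_zero, h1.2]
  have h3 : c.degree < (X ^ L * g).degree := by
    rw [h2]
    exact hc.trans_le (by exact_mod_cast Nat.le_add_right L n)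
  exact ⟨h1.1.add_of_left h3, by rw [natDegree_add_eq_left_of_degree_lt h3, h1.2]⟩

theorem pair_up (hS : StSel) (hM : StMM) {n L : ℕ} {c c' : k[X]} (hn : 64 ≤ n)
    (hne : c ≠ c') (hd : c.degree < L) (hd' : c'.degree < L) :
    avm n (fun g => if Irreducible (X ^ L * g + c) ∧ Irreducible (X ^ L * g + c') then 1 else 0) ≤
      cS * (64 * Real.exp 6 / n) ^ 2 * Rp (c' - c) := by
  have h0 : c' - c ≠ 0 := sub_ne_zero.2 hne.symm
  have h1 := hS k (Tz k 2 (n / 32)) (fun p g => p ∣ (c + X ^ L * g) * (c + X ^ L * g + (c' - c)))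
    (fun p => om (c' - c) p / Nm p) 16 (n / 32) n (by omega) le_rfl (by omega) (fun p hp => by
      obtain ⟨g1, g2, g3⟩ := mem_Tz.1 hp
      have g4 : (4 : ℝ) ≤ Nm p := by
        have := pow_le_Nm (k := k) g3
        linarith
      have g5 : om (c' - c) p ≤ 2 := by
        unfold om
        split_ifs <;> norm_num
      have per : ∀ v t : k[X], p ∣ (v + p * t) * (v + p * t + (c' - c)) ↔
          p ∣ v * (v + (c' - c)) := fun v t => by
        rw [show (v + p * t) * (v + p * t + (c' - c)) =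
          v * (v + (c' - c)) + p * (t * (2 * v + p * t + (c' - c))) by ring,
          dvd_add_left (dvd_mul_right _ _)]
      refine ⟨g1, g2, fun F t => ?_, ?_, ?_, ?_⟩
      · rw [show c + X ^ L * (F + p * t) = c + X ^ L * F + p * (X ^ L * t) by ring, per]
      · have hX : IsCoprime (X ^ L) p := (g1.isCoprime_iff.2
          (g1.not_dvd_of_lt X_ne_zero (by rw [natDegree_X]; omega))).pow_left
        rw [avg_affine (F := fun v => if p ∣ v * (v + (c' - c)) then (1 : ℝ) else 0) g1.1.ne_zero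
          le_rfl (fun v t => by simp only [per]) hX c, avg_dvd_two g1]
      · rw [div_lt_one (Nm_pos p)]
        linarith
      · have g6 := Nm_pos p
        have g7 : 0 < Nm p - om (c' - c) p := by linarith
        rw [show om (c' - c) p / Nm p / (1 - om (c' - c) p / Nm p) =
          om (c' - c) p / (Nm p - om (c' - c) p) by field_simp, div_le_div_iff₀ g7 g6]
        unfold om
        split_ifs <;> linarith)
  have h2 : ∏ p ∈ Tz k 2 (n / 32), (1 - om (c' - c) p / Nm p) ≤
      (∏ p ∈ Tz k 2 (n / 32), (1 - 1 / Nm p)) ^ 2 *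
        ∏ p ∈ (Tz k 2 (n / 32)).filter (fun p => p ∣ c' - c), (1 + 1 / (Nm p - 1)) := by
    rw [← Finset.prod_pow, Finset.prod_filter, ← Finset.prod_mul_distrib]
    refine Finset.prod_le_prod (fun p hp => ?_) fun p hp => ?_
    · have := pow_le_Nm (k := k) (mem_Tz.1 hp).2.2
      rw [sub_nonneg, div_le_one (Nm_pos p)]
      unfold om
      split_ifs <;> linarith
    · have g1 := (mem_Tz.1 hp).1.two_le_Nm
      have g2 : Nm p - 1 ≠ 0 := by linarith
      have g3 : Nm p ≠ 0 := by linarith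
      unfold om
      split_ifs
      · refine le_of_eq ?_
        field_simp
        ring
      · rw [show 2 / Nm p = 2 * (1 / Nm p) by ring]
        nlinarith [sq_nonneg (1 / Nm p)]
  have h5 : ∏ p ∈ (Tz k 2 (n / 32)).filter (fun p => p ∣ c' - c), (1 + 1 / (Nm p - 1)) ≤
      Rp (c' - c) := by
    refine Finset.prod_le_prod_of_subset_of_one_le (fun p hp => ?_) (fun p hp => ?_)
      fun p hp _ => ?_
    · exact (mem_pf h0).2 ⟨(mem_Tz.1 (Finset.mem_filter.1 hp).1).1, (Finset.mem_filter.1 hp).2⟩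
    · linarith [(one_div_Nm_sub_le (mem_Tz.1 (Finset.mem_filter.1 hp).1).1).1]
    · linarith [(one_div_Nm_sub_le ((mem_pf h0).1 hp).1).1]
  have h3 := (prod_Tz (k := k) hM (j := 2) (by omega) (by omega : 2 ≤ n / 32)).trans
    (div_le_of_32 (by omega) _ (Real.exp_pos _).le)
  rw [show (2 : ℝ) * ((2 : ℕ) + 1) = 6 by norm_num] at h3
  have h4 := pow_le_pow_left₀
    (Finset.prod_nonneg fun p hp => (one_sub_pos (mem_Tz.1 hp).1).le) h3 2
  have h6 := mul_le_mul h4 h5 (Finset.prod_nonneg fun p hp => by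
    linarith [(one_div_Nm_sub_le (mem_Tz.1 (Finset.mem_filter.1 hp).1).1).1]) (by positivity)
  rw [mul_assoc]
  refine le_trans (avm_mono fun g hg => ?_)
    (h1.trans (mul_le_mul_of_nonneg_left (h2.trans h6) cS_pos.le))
  split_ifs with a1 a2 a3
  · exact le_rfl
  · refine absurd (fun p hp b => ?_) a2
    obtain ⟨g1, g2, -⟩ := mem_Tz.1 hp
    have e1 := (MD_join hg hd).2
    have e2 := (MD_join hg hd').2
    rcases g1.prime.dvd_or_dvd b with b | b
    · exact not_dvd_of_irr g1 a1.1 (by omega) (by rwa [add_comm])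
    · exact not_dvd_of_irr g1 a1.2 (by omega) (by convert b using 1; ring)
  · exact zero_le_one
  · exact le_rfl

end Pool.Agent.Lib.MP_127c84_nt
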