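import Pool.Agent.Lib.MP_9227d9_nt.TwAll
import Pool.Agent.Lib.MP_9227d9_nt.TwSel
import Pool.Agent.Lib.MP_127c84_nt.Sieve
import Pool.Agent.Lib.MP_127c84_nt.GsUni
import Pool.Agent.Lib.MP_127c84_nt.GsLow

/-! Assembly of the modules. -/

namespace Pool.Agent.Lib.MP_127c84_nt

open Polynomial Pool.Agent.Lib.MP_9227d9_nt.Mob

theorem gsMM : StMM := stMM stSeq (stSm1 stPar1)

theorem gsUni : StUni :=
  stUni twCore (stK2 stVar stM5 stOm) (stLine (stA stA1 (stA2 stA2n)) (stB stB0)) gsMM twDe stSing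

theorem gsTri : StTri3 := by
  intro k _ _ _
  have h0 := cS_pos
  refine ⟨cS * (64 * Real.exp 2) ^ 3, by positivity, fun n j h h' h1 h2 h3 h4 h5 h6 h7 => ?_⟩
  have hn : (0 : ℝ) < n := by exact_mod_cast (by omega : 0 < n)
  refine (mul_le_mul_of_nonneg_left (tri_up (stSel stSeq) gsMM h1 h2 h3 h4 h5 h6 h7)
    (by positivity)).trans ?_
  have e1 : Real.exp (2 * (j + 1)) = Real.exp 2 * (Real.exp 1 ^ 2) ^ j := by
    rw [← pow_mul, ← Real.exp_nat_mul, ← Real.exp_add]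
    congr 1
    push_cast
    ring
  have e2 : (Real.exp 1 ^ 2) ^ j ≤ 8 ^ j := by
    refine pow_le_pow_left₀ (by positivity) ?_ j
    have := Real.exp_one_lt_d9
    have := Real.exp_pos 1
    nlinarith
  calc (n : ℝ) ^ 3 * (cS * (64 * Real.exp (2 * (j + 1)) / n) ^ 3)
      = cS * (64 * Real.exp 2) ^ 3 * ((Real.exp 1 ^ 2) ^ j) ^ 3 := by
        rw [e1]
        field_simp
    _ ≤ cS * (64 * Real.exp 2) ^ 3 * (8 ^ j) ^ 3 := by gcongr
    _ = _ := by
        rw [← pow_mul, mul_comm j 3, pow_mul]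
        norm_num

end Pool.Agent.Lib.MP_127c84_nt
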