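import Pool.Agent.Lib.MP_127c84_nt.GsCode

/-! Many primes have a close successor. -/

namespace Pool.Agent.Lib.MP_127c84_nt

open Polynomial Filter Pool.Agent.Lib.MP_9227d9_nt.Mob

open scoped Classical

variable {k : Type} [Field k] [Fintype k]

/-- `F` is irreducible and has a later irreducible neighbour at distance of degree below `j`. -/
def Near (c : k[X] → ℕ) (j : ℕ) (F : k[X]) : Prop :=
  ∃ h ∈ (Pn k j).erase 0, Irreducible F ∧ Irreducible (F + h) ∧ c F < c (F + h)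

namespace GsCnt

theorem ind_ge {ι : Type} [DecidableEq ι] (H : Finset ι) (p : ι → Prop) :
    ∑ h ∈ H, (if p h then (1 : ℝ) else 0) -
      ∑ h ∈ H, ∑ h' ∈ H.erase h, (if p h ∧ p h' then (1 : ℝ) else 0) ≤
      if ∃ h ∈ H, p h then 1 else 0 := by
  obtain ⟨u, hu⟩ : ∃ u, u = ∑ h ∈ H, (if p h then (1 : ℝ) else 0) := ⟨_, rfl⟩
  have h1 : ∀ h ∈ H, ∑ h' ∈ H.erase h, (if p h ∧ p h' then (1 : ℝ) else 0) =
      (if p h then (1 : ℝ) else 0) * (u - 1) := by
    intro h hh
    by_cases hp' : p h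
    · simp only [hp', true_and, if_true, one_mul]
      rw [hu, ← Finset.add_sum_erase H _ hh, if_pos hp']
      ring
    · simp [hp']
  rw [Finset.sum_congr rfl h1, ← Finset.sum_mul, ← hu]
  split_ifs with h
  · nlinarith [sq_nonneg (u - 1)]
  · have : u = 0 := by
      rw [hu]
      exact Finset.sum_eq_zero fun a ha => if_neg fun hp' => h ⟨a, ha, hp'⟩
    simp [this]

theorem half [CharP k 2] {c : k[X] → ℕ} (hc : Function.Injective c) {h : k[X]} {N : ℕ}
    (h0 : h ≠ 0) (hd : h.degree < N) :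
    avm N (fun F => if Irreducible F ∧ Irreducible (F + h) ∧ c F < c (F + h) then (1 : ℝ) else 0) =
      avm N (tw h) / 2 := by
  have e : ∀ F : k[X], F + h + h = F := fun F => by
    rw [add_assoc, CharTwo.add_self_eq_zero, add_zero]
  have h1 := avm_shift (n := N) (F := fun F => if Irreducible F ∧ Irreducible (F + h) ∧
    c F < c (F + h) then (1 : ℝ) else 0) hd
  have h2 : avm N (tw h) = avm N (fun F => (if Irreducible F ∧ Irreducible (F + h) ∧
      c F < c (F + h) then (1 : ℝ) else 0) + if Irreducible (F + h) ∧ Irreducible (F + h + h) ∧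
      c (F + h) < c (F + h + h) then (1 : ℝ) else 0) := by
    refine avm_congr fun F _ => ?_
    rw [e, tw]
    have h3 : c F ≠ c (F + h) := fun h4 => h0 (by simpa using hc h4)
    by_cases a1 : Irreducible F <;> by_cases a2 : Irreducible (F + h) <;>
      rcases lt_or_gt_of_ne h3 with a3 | a3 <;> simp [a1, a2, a3, a3.not_gt]
  rw [h2, avm_add, h1]
  ring

theorem pairs {j : ℕ} (hj : 3 ≤ j) {B : ℝ} (hB : 0 ≤ B) {f : k[X] → ℝ} (h0 : ∀ h, 0 ≤ f h)
    (hf : ∀ h ∈ (Pn k j).erase 0, X * (X + 1) ∣ h → B ≤ f h) :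
    qR k ^ j / qR k ^ 2 / 2 * B ≤ ∑ h ∈ (Pn k j).erase 0, f h := by
  have g0 : (X * (X + 1) : k[X]) ≠ 0 :=
    mul_ne_zero X_ne_zero (by simpa using X_add_C_ne_zero (1 : k))
  have g2 : (X * (X + 1) : k[X]).natDegree ≤ 2 := by compute_degree
  obtain ⟨i, rfl⟩ : ∃ i, j = i + 1 + 2 := ⟨j - 3, by omega⟩
  have hq := two_le_qR (k := k)
  have hsub : ((Pn k (i + 1)).erase 0).image (fun g => X * (X + 1) * g) ⊆
      (Pn k (i + 1 + 2)).erase 0 := by
    intro h hh
    obtain ⟨g, hg, rfl⟩ := Finset.mem_image.1 hh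
    rw [Finset.mem_erase] at hg ⊢
    exact ⟨mul_ne_zero g0 hg.1, mem_Pn.2 (degree_mul_lt (mem_Pn.1 hg.2) (by omega))⟩
  have hcard : (((Pn k (i + 1)).erase 0).card : ℝ) = qR k ^ (i + 1) - 1 := by
    have h1 : (0 : k[X]) ∈ Pn k (i + 1) := mem_Pn.2 (by
      rw [degree_zero]; exact WithBot.bot_lt_coe _)
    rw [← card_Pn, ← Finset.card_erase_add_one h1]
    push_cast
    ring
  refine le_trans ?_ (Finset.sum_le_sum_of_subset_of_nonneg hsub fun h _ _ => h0 h)
  rw [Finset.sum_image fun a _ b _ hab => mul_left_cancel₀ g0 hab]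
  refine le_trans ?_ (Finset.sum_le_sum fun g hg => hf _ (hsub (Finset.mem_image_of_mem _ hg))
    (dvd_mul_right _ _))
  rw [Finset.sum_const, nsmul_eq_mul, hcard, pow_add (qR k) (i + 1) 2,
    mul_div_cancel_right₀ _ (by positivity)]
  have h2 : 2 ≤ qR k ^ (i + 1) := hq.trans (le_self_pow₀ (by linarith) (by omega))
  exact mul_le_mul_of_nonneg_right (by linarith) hB

theorem triples {j : ℕ} {B : ℝ} (hB : 0 ≤ B) {f : k[X] → k[X] → ℝ}
    (hf : ∀ h ∈ (Pn k j).erase 0, ∀ h' ∈ ((Pn k j).erase 0).erase h, f h h' ≤ B) :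
    ∑ h ∈ (Pn k j).erase 0, ∑ h' ∈ ((Pn k j).erase 0).erase h, f h h' ≤
      qR k ^ j * (qR k ^ j * B) := by
  have hc : (((Pn k j).erase 0).card : ℝ) ≤ qR k ^ j := by
    rw [← card_Pn]
    exact_mod_cast Finset.card_erase_le
  have hq := qR_pos (k := k)
  refine (Finset.sum_le_card_nsmul _ _ (qR k ^ j * B) fun h hh => ?_).trans ?_
  · refine (Finset.sum_le_card_nsmul _ _ B (hf h hh)).trans ?_
    rw [nsmul_eq_mul]
    refine mul_le_mul_of_nonneg_right (le_trans ?_ hc) hB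
    exact_mod_cast Finset.card_erase_le
  · rw [nsmul_eq_mul]
    exact mul_le_mul_of_nonneg_right hc (by positivity)

theorem mul_le_of_sq {r B N : ℝ} (hr : 0 ≤ r) (hB : 0 ≤ B) (h1 : r ^ 2 ≤ N) (h2 : B ^ 2 ≤ N) :
    r * B ≤ N := by nlinarith [sq_nonneg (r - B)]

end GsCnt

theorem near_ge [CharP k 2] (hU : StUni) (hT : StTri3) {c : k[X] → ℕ}
    (hc : Function.Injective c) : ∃ a : ℝ, 0 < a ∧ ∀ᶠ N : ℕ in atTop, ∀ j, 4 ≤ j →
      ((512 * Fintype.card k) ^ j) ^ 2 ≤ N →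
      a * qR k ^ j / (N : ℝ) ^ 2 ≤ avm N fun F => if Near c j F then 1 else 0 := by
  obtain ⟨a, ha, HU⟩ := hU k
  obtain ⟨C, hC0, ht⟩ := hT k
  have hq := two_le_qR (k := k)
  have hq' : 2 ≤ Fintype.card k := Fintype.one_lt_card
  refine ⟨a / (8 * qR k ^ 2), by positivity, ?_⟩
  filter_upwards [HU, eventually_ge_atTop 1, tendsto_natCast_atTop_atTop.eventually_ge_atTop
    ((8 * C * qR k ^ 2 / a) ^ 2)] with N hu hN1 hN j hj hjN
  have hN0 : (0 : ℝ) < N := by exact_mod_cast hN1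
  have h2j : 2 ^ j ≤ N := ((Nat.pow_le_pow_left (by omega) j).trans
    (Nat.le_self_pow (by norm_num) _)).trans hjN
  have hjN' : j ≤ N := Nat.lt_two_pow_self.le.trans h2j
  have hj32 : j ≤ N / 32 := by
    have a1 : j ≤ (512 * Fintype.card k) ^ j := (Nat.lt_pow_self (by omega)).le
    have a2 : 32 ≤ (512 * Fintype.card k) ^ j := le_trans (by omega) (Nat.le_self_pow (by omega) _)
    have a3 := Nat.mul_le_mul a1 a2
    rw [← sq] at a3
    omega
  have hdeg : ∀ h ∈ (Pn k j).erase 0, h ≠ 0 ∧ h.natDegree < j ∧ h.degree < N := by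
    intro h hh
    rw [Finset.mem_erase, mem_Pn] at hh
    exact ⟨hh.1, natDegree_lt_of_degree hh.1 hh.2, hh.2.trans_le (by exact_mod_cast hjN')⟩
  refine le_trans ?_ (avm_mono fun F _ => (GsCnt.ind_ge ((Pn k j).erase 0) fun h =>
    Irreducible F ∧ Irreducible (F + h) ∧ c F < c (F + h)).trans_eq (by unfold Near; split_ifs <;> rfl))
  rw [avm_sub, avm_sum, avm_sum]
  have p1 := GsCnt.pairs (k := k) (j := j) (by omega) (B := a / (N : ℝ) ^ 2 / 2) (by positivity)
    (f := fun h => avm N fun F => if Irreducible F ∧ Irreducible (F + h) ∧ c F < c (F + h)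
      then (1 : ℝ) else 0) (fun h => avm_nonneg fun F _ => by split_ifs <;> norm_num) (by
      intro h hh hd
      obtain ⟨d1, d2, d3⟩ := hdeg h hh
      rw [GsCnt.half hc d1 d3]
      refine div_le_div_of_nonneg_right ?_ (by norm_num)
      rw [div_le_iff₀' (by positivity)]
      exact hu h d1 hd ((Nat.pow_le_pow_right (by norm_num) d2.le).trans h2j))
  have p2 := GsCnt.triples (k := k) (j := j) (B := C * 512 ^ j / (N : ℝ) ^ 3) (by positivity)
    (f := fun h h' => avm N fun F => if (Irreducible F ∧ Irreducible (F + h) ∧ c F < c (F + h)) ∧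
      Irreducible F ∧ Irreducible (F + h') ∧ c F < c (F + h') then (1 : ℝ) else 0) (by
      intro h hh h' hh'
      obtain ⟨d1, d2, -⟩ := hdeg h hh
      obtain ⟨d3, d4, -⟩ := hdeg h' (Finset.mem_of_mem_erase hh')
      have d5 := ht N j h h' hj hj32 d1 d3 (Finset.ne_of_mem_erase hh').symm d2 d4
      rw [le_div_iff₀' (by positivity)]
      refine le_trans (mul_le_mul_of_nonneg_left (avm_mono fun F _ => ?_) (by positivity)) d5
      split_ifs with e1 e2
      · exact le_rfl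
      · exact absurd ⟨e1.1.1, e1.1.2.1, e1.2.2.1⟩ e2
      · norm_num
      · exact le_rfl)
  have p3 : ∑ h ∈ (Pn k j).erase 0, avm N (fun F => ∑ h' ∈ ((Pn k j).erase 0).erase h,
      if (Irreducible F ∧ Irreducible (F + h) ∧ c F < c (F + h)) ∧
      Irreducible F ∧ Irreducible (F + h') ∧ c F < c (F + h') then (1 : ℝ) else 0) ≤ _ :=
    (Finset.sum_congr rfl fun h _ => avm_sum _ _).trans_le p2
  have p4 : (512 * qR k) ^ j * (8 * C * qR k ^ 2 / a) ≤ N :=
    GsCnt.mul_le_of_sq (by positivity) (by positivity) (by unfold qR; exact_mod_cast hjN) hN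
  have p5 : qR k ^ j * (qR k ^ j * (C * 512 ^ j / (N : ℝ) ^ 3)) ≤
      a / (8 * qR k ^ 2) * qR k ^ j / (N : ℝ) ^ 2 := by
    have e : qR k ^ j * (qR k ^ j * (C * 512 ^ j / (N : ℝ) ^ 3)) =
        a / (8 * qR k ^ 2) * qR k ^ j / (N : ℝ) ^ 2 *
          ((512 * qR k) ^ j * (8 * C * qR k ^ 2 / a) / N) := by
      rw [mul_pow]
      field_simp
    rw [e]
    exact mul_le_of_le_one_right (by positivity) ((div_le_one hN0).2 p4)
  have p6 : qR k ^ j / qR k ^ 2 / 2 * (a / (N : ℝ) ^ 2 / 2) =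
      2 * (a / (8 * qR k ^ 2) * qR k ^ j / (N : ℝ) ^ 2) := by
    field_simp
    ring
  refine le_trans ?_ (sub_le_sub (p1.trans_eq ?_) (le_of_eq_of_le ?_ p3))
  · linarith
  · exact Finset.sum_congr rfl fun h _ => avm_congr fun F _ => by split_ifs <;> rfl
  · exact Finset.sum_congr rfl fun h _ => avm_congr fun F _ =>
      Finset.sum_congr rfl fun h' _ => by split_ifs <;> rfl

end Pool.Agent.Lib.MP_127c84_nt
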