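import Pool.Agent.Lib.MP_127c84_nt.GsDefs

/-! The numbering of polynomials by their digits. -/

namespace Pool.Agent.Lib.MP_127c84_nt

open Polynomial Pool.Agent.Lib.MP_9227d9_nt.Mob

open scoped Classical

namespace GsCode

theorem eq_of_digits {q : ℕ} (hq : 2 ≤ q) (N : ℕ) : ∀ a b : ℕ, a < q ^ N → b < q ^ N →
    (∀ i, a / q ^ i % q = b / q ^ i % q) → a = b := by
  induction N with
  | zero => intro a b ha hb _; simp at ha hb; omega
  | succ N ih =>
    intro a b ha hb h
    have h1 : a / q = b / q := by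
      refine ih _ _ (Nat.div_lt_of_lt_mul (by rwa [← pow_succ'])) (Nat.div_lt_of_lt_mul
        (by rwa [← pow_succ'])) fun i => ?_
      rw [Nat.div_div_eq_div_mul, Nat.div_div_eq_div_mul, ← pow_succ']
      exact h _
    have h2 := h 0
    simp only [pow_zero, Nat.div_one] at h2
    rw [← Nat.div_add_mod a q, ← Nat.div_add_mod b q, h1, h2]

theorem div_eq {q : ℕ} (hq : 2 ≤ q) {a b j : ℕ}
    (h : ∀ i, j ≤ i → a / q ^ i % q = b / q ^ i % q) : a / q ^ j = b / q ^ j := by
  refine eq_of_digits hq (a + b) _ _ ?_ ?_ fun i => ?_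
  · exact (Nat.div_le_self _ _).trans_lt ((Nat.le_add_right a b).trans_lt (Nat.lt_pow_self hq))
  · exact (Nat.div_le_self _ _).trans_lt ((Nat.le_add_left b a).trans_lt (Nat.lt_pow_self hq))
  · rw [Nat.div_div_eq_div_mul, Nat.div_div_eq_div_mul, ← pow_add]
    exact h _ (Nat.le_add_right _ _)

end GsCode

/-- A numbering of the polynomials in which cosets of small degree are intervals. -/
structure Code {k : Type} [Field k] [Fintype k] (e : ℕ → k[X]) (c : k[X] → ℕ) : Prop where
  ce : ∀ m, c (e m) = m
  ec : ∀ f, e (c f) = f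
  near : ∀ (f g : k[X]) (j : ℕ), (f - g).degree < j → c f < c g + Fintype.card k ^ j
  lt : ∀ (f : k[X]) (N : ℕ), f.degree < N ↔ c f < Fintype.card k ^ N
  split : ∀ (g r : k[X]) (L : ℕ), r.degree < L →
    c (X ^ L * g + r) = Fintype.card k ^ L * c g + c r

theorem exists_code {k : Type} [Field k] [Fintype k] (φ : ℕ → k)
    (hφ : Set.BijOn φ (Set.Iio (Fintype.card k)) Set.univ) (h0 : φ 0 = 0) (e : ℕ → k[X])
    (he : ∀ m, e m = ∑ i ∈ Finset.range m,
      monomial i (φ (m / Fintype.card k ^ i % Fintype.card k))) : ∃ c, Code e c := by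
  have hq : 2 ≤ Fintype.card k := Fintype.one_lt_card
  have hco : ∀ m i, (e m).coeff i = φ (m / Fintype.card k ^ i % Fintype.card k) := by
    intro m i
    rw [he, finset_sum_coeff]
    simp only [coeff_monomial, Finset.sum_ite_eq', Finset.mem_range]
    split_ifs with h
    · rfl
    · rw [Nat.div_eq_of_lt ((Nat.lt_pow_self hq).trans_le
        (Nat.pow_le_pow_right (by omega) (not_lt.1 h))), Nat.zero_mod, h0]
  have hblock : ∀ (a b j : ℕ), (e a - e b).degree < j →
      a / Fintype.card k ^ j = b / Fintype.card k ^ j := by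
    intro a b j h
    refine GsCode.div_eq hq fun i hi => ?_
    have h1 := (degree_lt_iff_coeff_zero _ _).1 h i hi
    rw [coeff_sub, hco, hco, sub_eq_zero] at h1
    exact hφ.injOn (Nat.mod_lt _ (by omega)) (Nat.mod_lt _ (by omega)) h1
  have hinj : Function.Injective e := by
    intro a b h
    simpa using hblock a b 0 (by rw [h, sub_self, degree_zero]; exact WithBot.bot_lt_coe _)
  have e0 : e 0 = 0 := by rw [he]; simp
  have hlt : ∀ m N : ℕ, (e m).degree < N ↔ m < Fintype.card k ^ N := by
    intro m N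
    constructor
    · intro h
      have := hblock m 0 N (by rwa [e0, sub_zero])
      rw [Nat.zero_div, Nat.div_eq_zero_iff] at this
      exact this.resolve_left (by positivity)
    · intro h
      refine (degree_lt_iff_coeff_zero _ _).2 fun i hi => ?_
      rw [hco, Nat.div_eq_of_lt (h.trans_le (Nat.pow_le_pow_right (by omega) hi)), Nat.zero_mod, h0]
  have hsurj : Function.Surjective e := by
    intro f
    have h1 : (Finset.range (Fintype.card k ^ (f.natDegree + 1))).image e =
        Pn k (f.natDegree + 1) := by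
      refine Finset.eq_of_subset_of_card_le (fun g hg => ?_) ?_
      · obtain ⟨m, hm, rfl⟩ := Finset.mem_image.1 hg
        exact mem_Pn.2 ((hlt _ _).2 (Finset.mem_range.1 hm))
      · rw [Finset.card_image_of_injective _ hinj, Finset.card_range]
        have := card_Pn (k := k) (f.natDegree + 1)
        unfold qR at this
        exact_mod_cast this.le
    have h2 : f ∈ Pn k (f.natDegree + 1) :=
      mem_Pn.2 (degree_lt_of_natDegree fun _ => Nat.lt_succ_self _)
    rw [← h1] at h2
    obtain ⟨m, -, hm⟩ := Finset.mem_image.1 h2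
    exact ⟨m, hm⟩
  have hsplit : ∀ a b L : ℕ, b < Fintype.card k ^ L →
      e (Fintype.card k ^ L * a + b) = X ^ L * e a + e b := by
    intro a b L hb
    ext i
    rw [coeff_add, coeff_X_pow_mul', hco, hco, hco]
    split_ifs with h
    · obtain ⟨t, rfl⟩ := Nat.exists_eq_add_of_le h
      rw [Nat.div_eq_of_lt (hb.trans_le (Nat.pow_le_pow_right (by omega) h)), Nat.zero_mod, h0,
        add_zero, Nat.add_sub_cancel_left, pow_add, ← Nat.div_div_eq_div_mul,
        Nat.mul_add_div (by positivity), Nat.div_eq_of_lt hb, add_zero]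
    · obtain ⟨t, rfl⟩ := Nat.exists_eq_add_of_lt (not_le.1 h)
      rw [zero_add, add_assoc, pow_add, mul_assoc, Nat.mul_add_div (by positivity), pow_succ',
        mul_assoc, Nat.mul_add_mod]
  choose c hc using hsurj
  refine ⟨c, fun m => hinj (hc _), hc, fun f g j h => ?_, fun f N => ?_, fun g r L h => ?_⟩
  · have h1 := hblock (c f) (c g) j (by rwa [hc, hc])
    have h2 := Nat.lt_mul_div_succ (c f) (show 0 < Fintype.card k ^ j by positivity)
    have h3 := Nat.mul_div_le (c g) (Fintype.card k ^ j)
    rw [h1, mul_add] at h2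
    omega
  · rw [← hlt, hc]
  · refine hinj ?_
    rw [hc, hsplit _ _ _ ((hlt _ _).1 (by rwa [hc])), hc, hc]

end Pool.Agent.Lib.MP_127c84_nt
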