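import Pool.Agent.Lib.MP_127c84_nt.GsCnt

/-! The divergence of the series. -/

namespace Pool.Agent.Lib.MP_127c84_nt

open Polynomial Filter Pool.Agent.Lib.MP_9227d9_nt.Mob

open scoped Classical

namespace GsDiv

theorem geo {q d : ℝ} (hq : 2 ≤ q) (hd : 0 < d) (J : ℕ) :
    ∑ j ∈ Finset.range J, (if d < q ^ j then 1 / q ^ j else 0) + 2 / max d (q ^ J) ≤ 2 / d := by
  induction J with
  | zero =>
    rw [Finset.range_zero, Finset.sum_empty, zero_add]
    exact div_le_div_of_nonneg_left (by norm_num) hd (le_max_left _ _)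
  | succ J ih =>
    rw [Finset.sum_range_succ, add_assoc]
    refine le_trans (add_le_add le_rfl ?_) ih
    have h0 : 0 < q ^ J := by positivity
    have h1 : 2 * q ^ J ≤ q ^ (J + 1) := by rw [pow_succ']; gcongr
    split_ifs with h
    · rw [max_eq_right h.le]
      have : 2 / max d (q ^ (J + 1)) ≤ 2 / (2 * q ^ J) :=
        div_le_div_of_nonneg_left (by norm_num) (by positivity) (h1.trans (le_max_right _ _))
      have e : 2 / (2 * q ^ J) = 1 / q ^ J := by field_simp
      have e' : 2 / q ^ J = 1 / q ^ J + 1 / q ^ J := by ring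
      linarith
    · rw [zero_add]
      exact div_le_div_of_nonneg_left (by norm_num) (lt_max_of_lt_left hd)
        (max_le_max le_rfl (by linarith))

theorem not_summable : ¬ Summable fun N : ℕ => 1 / ((N : ℝ) * Real.log N) := by
  rw [← summable_condensed_iff_of_eventually_nonneg]
  · intro h
    have h2 : (0 : ℝ) < Real.log 2 := Real.log_pos one_lt_two
    refine Real.not_summable_one_div_natCast ((h.mul_left (Real.log 2)).congr fun j => ?_)
    push_cast
    rw [Real.log_pow]
    rcases Nat.eq_zero_or_pos j with rfl | hj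
    · simp
    · field_simp
  · exact Eventually.of_forall fun N =>
      div_nonneg zero_le_one (mul_nonneg N.cast_nonneg (Real.log_natCast_nonneg N))
  · filter_upwards [eventually_ge_atTop 2] with N hN
    have h1 : (2 : ℝ) ≤ N := by exact_mod_cast hN
    have h2 : 0 < Real.log N := Real.log_pos (by linarith)
    refine one_div_le_one_div_of_le (by positivity) ?_
    push_cast
    exact mul_le_mul (by linarith) (Real.log_le_log (by linarith) (by linarith)) h2.le
      (by linarith)

variable {k : Type} [Field k] [Fintype k]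

theorem card_PrL_le (N : ℕ) : ((PrL k N).card : ℝ) ≤ qR k ^ N := by
  rw [← card_Pn]
  exact_mod_cast Finset.card_filter_le _ _

theorem mul_card_PrL_le [CharP k 2] (N : ℕ) :
    (N : ℝ) * (PrL k (N + 1)).card ≤ 4 * qR k ^ N := by
  have hq := two_le_qR (k := k)
  induction N with
  | zero => simp
  | succ N ih =>
    have h1 : ((PrL k (N + 1 + 1)).card : ℝ) ≤ (PrL k (N + 1)).card + (PrD k (N + 1)).card := by
      have : PrL k (N + 1 + 1) ⊆ PrL k (N + 1) ∪ PrD k (N + 1) := by
        intro p hp'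
        rw [Finset.mem_union, mem_PrL, mem_PrD]
        rw [mem_PrL] at hp'
        rcases Nat.lt_succ_iff_lt_or_eq.1 hp'.2 with h | h
        · exact Or.inl ⟨hp'.1, h⟩
        · exact Or.inr ⟨hp'.1, h⟩
      exact_mod_cast (Finset.card_le_card this).trans (Finset.card_union_le _ _)
    have h2 := card_PrD_le (k := k) (N + 1)
    have h3 := card_PrL_le (k := k) (N + 1)
    have h4 : ((N + 1 : ℕ) : ℝ) * (PrL k (N + 1)).card ≤ 3 * qR k ^ (N + 1) := by
      have h5 : (0 : ℝ) ≤ (PrL k (N + 1)).card := Nat.cast_nonneg _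
      have h6 : 2 * qR k ^ N ≤ qR k ^ (N + 1) := by rw [pow_succ']; gcongr
      rcases le_or_gt 2 N with h | h
      · have h7 : (2 : ℝ) ≤ N := by exact_mod_cast h
        push_cast
        nlinarith
      · have h7 : ((N + 1 : ℕ) : ℝ) ≤ 3 := by exact_mod_cast (by omega : N + 1 ≤ 3)
        exact mul_le_mul h7 h3 h5 (by norm_num)
    nlinarith [mul_le_mul_of_nonneg_left h1 (Nat.cast_nonneg (α := ℝ) (N + 1))]

variable {e : ℕ → k[X]} {c : k[X] → ℕ}

theorem inj (H : Code e c) : Function.Injective c := fun f g h => by rw [← H.ec f, h, H.ec]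

theorem le_code (H : Code e c) {F : k[X]} {N : ℕ} (hF : MD N F) : N ≤ c F := by
  have h1 : ¬ c F < Fintype.card k ^ N := fun h => by
    have := (H.lt F N).2 h
    rw [degree_eq_natDegree hF.ne_zero, hF.2] at this
    exact lt_irrefl _ this
  exact (Nat.lt_pow_self Fintype.one_lt_card).le.trans (not_lt.1 h1)

theorem infinite [CharP k 2] (hU : StUni) (H : Code e c) :
    (Set.ofPred fun m => IsP (e m)).Infinite := by
  obtain ⟨a, ha, h⟩ := hU k
  refine Set.infinite_of_forall_exists_gt fun m => ?_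
  have g0 : (X * (X + 1) : k[X]) ≠ 0 :=
    mul_ne_zero X_ne_zero (by simpa using X_add_C_ne_zero (1 : k))
  obtain ⟨N, ⟨h1, h2⟩, h3⟩ := ((h.and (eventually_ge_atTop
    (2 ^ (X * (X + 1) : k[X]).natDegree))).and (eventually_gt_atTop m)).exists
  have h4 := h1 _ g0 dvd_rfl h2
  by_contra hc
  have h5 : avm N (tw (X * (X + 1) : k[X])) ≤ 0 := avm_le_of_le fun F hF => by
    rw [tw, if_neg]
    intro hF'
    exact hc ⟨c F, by show IsP (e (c F)); rw [H.ec]; exact ⟨hF.1, hF'.1⟩, h3.trans_le (le_code H hF)⟩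
  nlinarith [sq_nonneg (N : ℝ)]

theorem count_le (H : Code e c) {F : k[X]} {N : ℕ} (hF : IsP F) (hd : F.natDegree = N) :
    Nat.count (fun m => IsP (e m)) (c F) + 1 ≤ (PrL k (N + 1)).card := by
  have h1 : Nat.count (fun m => IsP (e m)) (c F + 1) = Nat.count (fun m => IsP (e m)) (c F) + 1 := by
    rw [Nat.count_succ, if_pos (by rwa [H.ec])]
  rw [← h1, Nat.count_eq_card_filter_range]
  have h2 : c F < Fintype.card k ^ (N + 1) :=
    (H.lt F _).1 (degree_lt_of_natDegree fun _ => by omega)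
  refine Finset.card_le_card_of_injOn e (fun m hm => ?_) fun a _ b _ h => ?_
  · rw [Finset.mem_coe, Finset.mem_filter, Finset.mem_range] at hm
    exact Finset.mem_filter.2 ⟨mem_Pn.2 ((H.lt _ _).2 (by rw [H.ce]; omega)), hm.2⟩
  · rw [← H.ce a, h, H.ce]

/-- The gap after `F`. -/
noncomputable def gap (e : ℕ → k[X]) (c : k[X] → ℕ) (F : k[X]) : ℝ :=
  (Nat.nth (fun m => IsP (e m)) (Nat.count (fun m => IsP (e m)) (c F) + 1) : ℝ) - c F

theorem gap_pos (H : Code e c) (hI : (Set.ofPred fun m => IsP (e m)).Infinite) {F : k[X]}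
    (hF : IsP F) : 0 < gap e c F := by
  have h1 := Nat.nth_count (p := fun m => IsP (e m)) (n := c F) (by rwa [H.ec])
  have h2 := (Nat.nth_lt_nth hI).2 (Nat.lt_succ_self (Nat.count (fun m => IsP (e m)) (c F)))
  rw [h1] at h2
  exact sub_pos.2 (by exact_mod_cast h2)

theorem gap_lt (H : Code e c) (hI : (Set.ofPred fun m => IsP (e m)).Infinite) {F : k[X]}
    {N j : ℕ} (hF : MD N F) (hj : j ≤ N) (hn : Near c j F) : gap e c F < qR k ^ j := by
  obtain ⟨h, hh, h1, h2, h3⟩ := hn
  have h4 := mem_Pn.1 (Finset.mem_of_mem_erase hh)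
  have h5 : IsP (F + h) := ⟨(hF.add (h4.trans_le (by exact_mod_cast hj))).1, h2⟩
  have h6 := Nat.nth_count (p := fun m => IsP (e m)) (n := c (F + h)) (by rwa [H.ec])
  have h7 := Nat.count_strict_mono (p := fun m => IsP (e m)) (by rw [H.ec]; exact ⟨hF.1, h1⟩) h3
  have h8 := (Nat.nth_le_nth hI).2 (Nat.succ_le_of_lt h7)
  have h9 := H.near (F + h) F j (by rwa [add_sub_cancel_left])
  rw [h6] at h8
  unfold gap qR
  rw [sub_lt_iff_lt_add']
  exact_mod_cast h8.trans_lt h9

theorem sum_gap (H : Code e c) (hI : (Set.ofPred fun m => IsP (e m)).Infinite) {N J : ℕ} {a : ℝ}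
    (hJ : J ≤ N) (h3 : 3 ≤ J) (ha : ∀ j, 4 ≤ j → j ≤ J →
      a * qR k ^ j / (N : ℝ) ^ 2 ≤ avm N fun F => if Near c j F then 1 else 0) :
    ((J : ℝ) - 3) * (a / (N : ℝ) ^ 2) ≤
      2 * avm N fun F => if Irreducible F then 1 / gap e c F else 0 := by
  have hq := two_le_qR (k := k)
  have h1 : ((J : ℝ) - 3) * (a / (N : ℝ) ^ 2) = ∑ j ∈ Finset.Icc 4 J, a / (N : ℝ) ^ 2 := by
    rw [Finset.sum_const, Nat.card_Icc, nsmul_eq_mul, show J + 1 - 4 = J - 3 by omega,
      Nat.cast_sub h3, Nat.cast_ofNat]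
  rw [h1, ← avm_mul_left]
  refine (Finset.sum_le_sum (g := fun j => avm N fun F =>
    (if Near c j F then 1 else 0) * (1 / qR k ^ j)) fun j hj => ?_).trans ?_
  · rw [avm_mul_right, mul_one_div, le_div_iff₀ (by positivity), div_mul_eq_mul_div]
    exact ha j (Finset.mem_Icc.1 hj).1 (Finset.mem_Icc.1 hj).2
  rw [← avm_sum]
  refine avm_mono fun F hF => ?_
  split_ifs with hi
  · have hg := gap_pos H hI ⟨hF.1, hi⟩
    have h2 := geo hq hg (J + 1)
    have h4 : 0 ≤ 2 / max (gap e c F) (qR k ^ (J + 1)) :=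
      div_nonneg (by norm_num) (le_max_of_le_left hg.le)
    rw [mul_one_div]
    refine le_trans ?_ ((le_add_of_nonneg_right h4).trans h2)
    refine le_trans (Finset.sum_le_sum fun j hj => ?_) (Finset.sum_le_sum_of_subset_of_nonneg
      (s := Finset.Icc 4 J) (fun j hj => Finset.mem_range.2 (Nat.lt_succ_of_le
        (Finset.mem_Icc.1 hj).2)) fun j _ _ => by split_ifs <;> positivity)
    by_cases hn : Near c j F
    · rw [if_pos hn, if_pos (gap_lt H hI hF ((Finset.mem_Icc.1 hj).2.trans hJ) hn), one_mul]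
    · rw [if_neg hn, zero_mul]
      split_ifs <;> positivity
  · rw [mul_zero]
    refine Finset.sum_nonpos fun j _ => ?_
    rw [if_neg (fun ⟨_, _, h, _⟩ => hi h), zero_mul]

end GsDiv

end Pool.Agent.Lib.MP_127c84_nt
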