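import Pool.Agent.Lib.MP_127c84_nt.Sieve
import Pool.Agent.Lib.MP_127c84_nt.GsDiv

/-! The convergence of the series. -/

namespace Pool.Agent.Lib.MP_127c84_nt

open Polynomial Filter Pool.Agent.Lib.MP_9227d9_nt.Mob GsDiv

open scoped Classical

namespace Up

theorem harm (N : ℕ) : ∑ d ∈ Finset.Icc 1 N, 1 / (d : ℝ) ≤ 1 + Real.log N := by
  have h := harmonic_le_one_add_log N
  rw [harmonic_eq_sum_Icc] at h
  push_cast at h
  simpa only [one_div] using h

theorem bertrand {y : ℝ} (hy : 1 < y) : Summable fun N : ℕ => 1 / ((N : ℝ) * Real.log N ^ y) := by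
  rw [← summable_condensed_iff_of_eventually_nonneg]
  · have h2 : (0 : ℝ) < Real.log 2 := Real.log_pos one_lt_two
    refine ((Real.summable_one_div_nat_rpow.2 hy).mul_left (1 / Real.log 2 ^ y)).congr fun j => ?_
    push_cast
    rw [Real.log_pow, Real.mul_rpow j.cast_nonneg h2.le]
    have h3 : (2 : ℝ) ^ j ≠ 0 := by positivity
    rw [mul_one_div (2 ^ j), div_mul_cancel_left₀ h3, one_div_mul_one_div, mul_comm, one_div]
  · exact Eventually.of_forall fun N => div_nonneg zero_le_one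
      (mul_nonneg N.cast_nonneg (Real.rpow_nonneg (Real.log_natCast_nonneg N) _))
  · filter_upwards [eventually_ge_atTop 2] with N hN
    have h1 : (2 : ℝ) ≤ N := by exact_mod_cast hN
    have h2 : 0 < Real.log N := Real.log_pos (by linarith)
    refine one_div_le_one_div_of_le (by positivity) ?_
    push_cast
    exact mul_le_mul (by linarith) (Real.rpow_le_rpow h2.le
      (Real.log_le_log (by linarith) (by linarith)) (by linarith)) (by positivity) (by linarith)

variable {k : Type} [Field k] [Fintype k] {e : ℕ → k[X]} {c : k[X] → ℕ}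

theorem avm_block (L n : ℕ) (F : k[X] → ℝ) :
    avm (L + n) F = avm n fun g => avg L fun r => F (X ^ L * g + r) := by
  have h := avg_split (k := k) (M := X ^ L) (pow_ne_zero _ X_ne_zero) n
    fun v => F (X ^ (L + n) + v)
  rw [natDegree_X_pow] at h
  rw [avm, h, avm_avg_comm]
  refine avg_congr fun r _ => avg_congr fun t _ => ?_
  congr 1
  ring

/-- The code of the prime after `F`. -/
noncomputable def nx (e : ℕ → k[X]) (c : k[X] → ℕ) (F : k[X]) : ℕ :=
  Nat.nth (fun m => IsP (e m)) (Nat.count (fun m => IsP (e m)) (c F) + 1)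

theorem lt_nx (H : Code e c) (hI : (Set.ofPred fun m => IsP (e m)).Infinite) {F : k[X]}
    (hF : IsP F) : c F < nx e c F := by
  have := gap_pos H hI hF
  exact_mod_cast sub_pos.1 this

theorem nx_le (H : Code e c) (hI : (Set.ofPred fun m => IsP (e m)).Infinite) {F G : k[X]}
    (hF : IsP F) (hG : IsP G) (h : c F < c G) : nx e c F ≤ c G := by
  have h6 := Nat.nth_count (p := fun m => IsP (e m)) (n := c G) (by rwa [H.ec])
  have h7 := Nat.count_strict_mono (p := fun m => IsP (e m)) (by rwa [H.ec]) h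
  exact ((Nat.nth_le_nth hI).2 (Nat.succ_le_of_lt h7)).trans h6.le

/-- The reciprocal distance of two codes. -/
noncomputable def rd (c : k[X] → ℕ) (r r' : k[X]) : ℝ :=
  if c r < c r' then 1 / ((c r' - c r : ℕ) : ℝ) else 0

omit [Fintype k] in
theorem rd_nonneg (r r' : k[X]) : 0 ≤ rd c r r' := by
  unfold rd
  split_ifs <;> positivity

theorem sum_rd (H : Code e c) (L : ℕ) (r : k[X]) :
    ∑ r' ∈ Pn k L, rd c r r' ≤ 1 + L * Real.log (qR k) := by
  unfold rd
  rw [← Finset.sum_filter, ← Finset.sum_image (g := fun r' => c r' - c r)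
    (f := fun d : ℕ => 1 / (d : ℝ)) fun a ha b hb h => inj H (by
      have h1 := (Finset.mem_filter.1 ha).2
      have h2 := (Finset.mem_filter.1 hb).2
      simp only at h
      omega)]
  refine (Finset.sum_le_sum_of_subset_of_nonneg (t := Finset.Icc 1 (Fintype.card k ^ L))
    (fun d hd => ?_) fun _ _ _ => by positivity).trans ((harm _).trans_eq ?_)
  · obtain ⟨a, ha, rfl⟩ := Finset.mem_image.1 hd
    have h1 := (Finset.mem_filter.1 ha).2
    have h2 := (H.lt a L).1 (mem_Pn.1 (Finset.mem_filter.1 ha).1)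
    exact Finset.mem_Icc.2 ⟨by omega, by omega⟩
  · rw [Nat.cast_pow, Real.log_pow, qR]

theorem block (H : Code e c) (hI : (Set.ofPred fun m => IsP (e m)).Infinite) {L n : ℕ} {g : k[X]}
    (hg : MD n g) :
    ∑ r ∈ Pn k L, (if Irreducible (X ^ L * g + r) then 1 / gap e c (X ^ L * g + r) else 0) ≤
      1 + ∑ r ∈ Pn k L, ∑ r' ∈ Pn k L, (if Irreducible (X ^ L * g + r) ∧
        Irreducible (X ^ L * g + r') then 1 else 0) * rd c r r' := by
  have hP : ∀ r ∈ Pn k L, Irreducible (X ^ L * g + r) → IsP (X ^ L * g + r) := fun r hr h =>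
    ⟨(MD_join hg (mem_Pn.1 hr)).1, h⟩
  have hc : ∀ r ∈ Pn k L, c (X ^ L * g + r) = Fintype.card k ^ L * c g + c r := fun r hr =>
    H.split g r L (mem_Pn.1 hr)
  have hl : ∀ r ∈ Pn k L, c r < Fintype.card k ^ L := fun r hr => (H.lt r L).1 (mem_Pn.1 hr)
  set T := (Pn k L).filter fun r => Irreducible (X ^ L * g + r) ∧
    Fintype.card k ^ L * c g + Fintype.card k ^ L ≤ nx e c (X ^ L * g + r) with hT
  have h1 : T.card ≤ 1 := Finset.card_le_one.2 fun a ha b hb => by
    obtain ⟨a1, a2, a3⟩ := Finset.mem_filter.1 ha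
    obtain ⟨b1, b2, b3⟩ := Finset.mem_filter.1 hb
    have a4 := nx_le H hI (hP a a1 a2) (hP b b1 b2)
    have b4 := nx_le H hI (hP b b1 b2) (hP a a1 a2)
    have a5 := hl a a1
    have b5 := hl b b1
    rw [hc a a1, hc b b1] at a4 b4
    exact inj H (by omega)
  have h2 : ∑ r ∈ Pn k L, (if r ∈ T then (1 : ℝ) else 0) ≤ 1 := by
    rw [Finset.sum_ite_mem, Finset.inter_eq_right.2 (Finset.filter_subset _ _), Finset.sum_const,
      nsmul_one]
    exact_mod_cast h1
  refine le_trans ?_ (add_le_add h2 le_rfl)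
  rw [← Finset.sum_add_distrib]
  refine Finset.sum_le_sum fun r hr => ?_
  have h3 : ∀ r' ∈ Pn k L, 0 ≤ (if Irreducible (X ^ L * g + r) ∧
      Irreducible (X ^ L * g + r') then (1 : ℝ) else 0) * rd c r r' := fun r' _ =>
    mul_nonneg (by split_ifs <;> norm_num) (rd_nonneg _ _)
  have h4 := Finset.sum_nonneg h3
  by_cases hi : Irreducible (X ^ L * g + r)
  · have h5 := lt_nx H hI (hP r hr hi)
    have h6 : gap e c (X ^ L * g + r) =
        ((nx e c (X ^ L * g + r) - c (X ^ L * g + r) : ℕ) : ℝ) := by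
      rw [Nat.cast_sub h5.le]
      rfl
    rw [if_pos hi, h6]
    by_cases ht : r ∈ T
    · rw [if_pos ht, one_div]
      exact (Nat.cast_inv_le_one _).trans (le_add_of_nonneg_right h4)
    · have h7 : nx e c (X ^ L * g + r) < Fintype.card k ^ L * c g + Fintype.card k ^ L :=
        not_le.1 fun h => ht (Finset.mem_filter.2 ⟨hr, hi, h⟩)
      rw [hc r hr] at h5
      set r' := e (nx e c (X ^ L * g + r) - Fintype.card k ^ L * c g) with hr'
      have h8 : c r' = nx e c (X ^ L * g + r) - Fintype.card k ^ L * c g := H.ce _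
      have h9 : r' ∈ Pn k L := mem_Pn.2 ((H.lt _ _).2 (by omega))
      have h10 : X ^ L * g + r' = e (nx e c (X ^ L * g + r)) :=
        inj H (by rw [hc r' h9, h8, H.ce]; omega)
      have h11 : Irreducible (X ^ L * g + r') := by
        rw [h10]
        exact (Nat.nth_mem_of_infinite hI _).2
      rw [if_neg ht, zero_add]
      refine le_trans (le_of_eq ?_) (Finset.single_le_sum h3 h9)
      rw [if_pos ⟨hi, h11⟩, one_mul, rd, if_pos (by omega), hc r hr]
      congr 2
      omega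
  · rw [if_neg hi]
    exact add_nonneg (by split_ifs <;> norm_num) h4

variable [CharP k 2]

theorem avm_gap (hS : StSel) (hM : StMM) (H : Code e c)
    (hI : (Set.ofPred fun m => IsP (e m)).Infinite) {L n : ℕ} (hn : 64 ≤ n) {B : ℝ} (hB : 0 ≤ B)
    (hR : ∀ h : k[X], h ≠ 0 → h.degree < L → Rp h ≤ B) :
    avm (L + n) (fun F => if Irreducible F then 1 / gap e c F else 0) ≤
      1 / qR k ^ L + cS * (64 * Real.exp 6 / n) ^ 2 * B * (1 + L * Real.log (qR k)) := by
  have hq := qR_pow_pos (k := k) L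
  have hA : 0 ≤ cS * (64 * Real.exp 6 / n) ^ 2 := mul_nonneg cS_pos.le (sq_nonneg _)
  rw [avm_block]
  refine (avm_mono fun g hg => div_le_div_of_nonneg_right (block H hI hg) hq.le).trans ?_
  simp only [div_eq_mul_inv _ (qR k ^ L)]
  rw [avm_mul_right, avm_add, avm_const, avm_sum, add_mul]
  refine add_le_add le_rfl ?_
  rw [← div_eq_mul_inv, div_le_iff₀ hq, ← card_Pn, mul_comm _ ((Pn k L).card : ℝ),
    ← nsmul_eq_mul, ← Finset.sum_const]
  refine Finset.sum_le_sum fun r hr => ?_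
  rw [avm_sum]
  refine le_trans (Finset.sum_le_sum fun r' hr' => ?_) ((Finset.mul_sum _ _ _).symm.trans_le
    (mul_le_mul_of_nonneg_left (sum_rd H L r) (mul_nonneg hA hB)))
  rw [avm_mul_right]
  by_cases h : r = r'
  · simp [rd, h]
  · refine mul_le_mul_of_nonneg_right ((pair_up hS hM hn h (mem_Pn.1 hr) (mem_Pn.1 hr')).trans
      (mul_le_mul_of_nonneg_left (hR _ (sub_ne_zero.2 (Ne.symm h)) ((degree_sub_le _ _).trans_lt
        (max_lt (mem_Pn.1 hr') (mem_Pn.1 hr)))) hA)) (rd_nonneg _ _)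

theorem le_count (H : Code e c) {F : k[X]} {m : ℕ} (hm : 1 ≤ m) (hF : MD (m + 1) F) :
    qR k ^ m ≤ m * Nat.count (fun a => IsP (e a)) (c F) := by
  have h1 := MP_a3f657_nt.Two.sum_deg_eq (k := k) hm le_rfl
  have h2 : ¬ c F < Fintype.card k ^ (m + 1) := fun h => by
    have := (H.lt F _).2 h
    rw [degree_eq_natDegree hF.ne_zero, hF.2] at this
    exact lt_irrefl _ this
  have h3 : ((MP_a3f657_nt.Two.irrLe k m).filter fun p => p.natDegree ∣ m).card ≤
      Nat.count (fun a => IsP (e a)) (c F) := by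
    rw [Nat.count_eq_card_filter_range]
    refine Finset.card_le_card_of_injOn c (fun p hp => ?_) (inj H).injOn
    obtain ⟨g1, g2⟩ := MP_a3f657_nt.Two.mem_irrLe.1 (Finset.mem_filter.1 hp).1
    have g3 := (H.lt p (m + 1)).1 (degree_lt_of_natDegree fun _ => by omega)
    exact Finset.mem_filter.2 ⟨Finset.mem_range.2 (by omega), by rwa [H.ec]⟩
  have h4 := Finset.sum_le_card_nsmul _ _ m fun p (hp : p ∈ (MP_a3f657_nt.Two.irrLe k m).filter
    fun p => p.natDegree ∣ m) => (MP_a3f657_nt.Two.mem_irrLe.1 (Finset.mem_filter.1 hp).1).1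
  rw [h1, smul_eq_mul, mul_comm] at h4
  unfold qR
  exact_mod_cast h4.trans (Nat.mul_le_mul_left _ h3)

omit [CharP k 2] in
theorem ev_log : ∀ᶠ m : ℕ in atTop, 3 ≤ Real.log m ∧ Real.log m ≤ m / 8 ∧ 128 ≤ m := by
  have h1 := (Real.tendsto_log_atTop.comp tendsto_natCast_atTop_atTop).eventually_ge_atTop 3
  have h2 := (tendsto_natCast_atTop_atTop (R := ℝ)).eventually
    (Real.isLittleO_log_id_atTop.bound (by norm_num : (0 : ℝ) < 1 / 8))
  filter_upwards [h1, h2, eventually_ge_atTop 128] with m a b d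
  refine ⟨a, ?_, d⟩
  rw [id, Real.norm_natCast] at b
  linarith [le_abs_self (Real.log m), Real.norm_eq_abs (Real.log m)]

theorem gap_up (hS : StSel) (hM : StMM) (H : Code e c)
    (hI : (Set.ofPred fun m => IsP (e m)).Infinite) {ε : ℝ} (hε : 0 < ε) : ∃ C, 0 ≤ C ∧
      ∀ᶠ m : ℕ in atTop, avm m (fun F => if Irreducible F then 1 / gap e c F else 0) ≤
        C * (Real.log m * Real.log m ^ ε) / (m : ℝ) ^ 2 := by
  obtain ⟨C, hC, hR⟩ := Rp_le (k := k) hε
  have hq := two_le_qR (k := k)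
  have hlq : 0 ≤ Real.log (qR k) := Real.log_nonneg (by linarith)
  have hcS := cS_pos
  refine ⟨1 + cS * (128 * Real.exp 6) ^ 2 * (C * 5 ^ ε) * (1 + 4 * Real.log (qR k)),
    by positivity, ?_⟩
  filter_upwards [ev_log] with m ⟨h1, h2, h3⟩
  have hm : (128 : ℝ) ≤ m := by exact_mod_cast h3
  obtain ⟨l, hl⟩ : ∃ l, l = Nat.log 2 m := ⟨_, rfl⟩
  have h4 : (m : ℝ) ≤ 2 ^ (l + 1) := by
    rw [hl]
    exact_mod_cast (Nat.lt_pow_succ_log_self one_lt_two m).le
  have h5 : (2 : ℝ) ^ l ≤ m := by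
    rw [hl]
    exact_mod_cast Nat.pow_log_le_self 2 (by omega)
  have h6 := Real.log_le_log (by positivity) h5
  rw [Real.log_pow] at h6
  have h7 : ((2 * (l + 1) : ℕ) : ℝ) ≤ 4 * Real.log m := by
    push_cast
    nlinarith [Real.log_two_gt_d9, Nat.cast_nonneg (α := ℝ) l]
  have h8 : 2 * (2 * (l + 1)) ≤ m := by exact_mod_cast (by linarith :
    2 * ((2 * (l + 1) : ℕ) : ℝ) ≤ m)
  obtain ⟨n, hn⟩ := Nat.exists_eq_add_of_le (by omega : 2 * (l + 1) ≤ m)
  have h9 : (m : ℝ) ≤ 2 * n := by exact_mod_cast (by omega : m ≤ 2 * n)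
  have hp : 1 ≤ Real.log m ^ ε := Real.one_le_rpow (by linarith) hε.le
  have h10 := avm_gap hS hM H hI (L := 2 * (l + 1)) (n := n) (by omega)
    (B := C * 5 ^ ε * Real.log m ^ ε) (by positivity) fun h h0 hd => by
      refine (hR h h0).trans ?_
      rw [mul_assoc, ← Real.mul_rpow (by norm_num) (by linarith)]
      have : (h.natDegree : ℝ) ≤ (2 * (l + 1) : ℕ) := by
        exact_mod_cast ((natDegree_lt_iff_degree_lt h0).2 hd).le
      gcongr
      linarith
  rw [← hn] at h10
  refine h10.trans ?_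
  rw [add_mul, add_div]
  refine add_le_add ?_ ?_
  · have : (m : ℝ) ^ 2 ≤ qR k ^ (2 * (l + 1)) := by
      rw [mul_comm, pow_mul]
      exact pow_le_pow_left₀ (by linarith) (h4.trans (pow_le_pow_left₀ two_pos.le hq _)) 2
    exact div_le_div₀ (by positivity) (by nlinarith) (by positivity) this
  · have a1 : 64 * Real.exp 6 / n ≤ 128 * Real.exp 6 / m := by
      rw [div_le_div_iff₀ (by linarith) (by linarith)]
      nlinarith [Real.exp_pos 6]
    have a2 : 1 + ((2 * (l + 1) : ℕ) : ℝ) * Real.log (qR k) ≤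
        (1 + 4 * Real.log (qR k)) * Real.log m := by nlinarith
    calc _ ≤ cS * (128 * Real.exp 6 / m) ^ 2 * (C * 5 ^ ε * Real.log m ^ ε) *
          ((1 + 4 * Real.log (qR k)) * Real.log m) := by gcongr
      _ = _ := by ring

/-- The term of the series that belongs to the prime `F`. -/
noncomputable def tm (e : ℕ → k[X]) (c : k[X] → ℕ) (x : ℝ) (F : k[X]) : ℝ :=
  |1 / (((Nat.count (fun a => IsP (e a)) (c F) : ℝ) + 1) *
    Real.log (Real.log ((Nat.count (fun a => IsP (e a)) (c F) : ℝ) + 1)) ^ x * gap e c F)|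

theorem tm_le (H : Code e c) (hI : (Set.ofPred fun m => IsP (e m)).Infinite) {x : ℝ} (hx : 0 ≤ x)
    {m : ℕ} (h1 : 3 ≤ Real.log m) (h2 : Real.log m ≤ m / 8) (h3 : 128 ≤ m) {F : k[X]}
    (hF : F ∈ PrD k m) :
    tm e c x F ≤ qR k * m / qR k ^ m * (2 ^ x / Real.log m ^ x) * (1 / gap e c F) := by
  obtain ⟨hP, hd⟩ := mem_PrD.1 hF
  obtain ⟨j, rfl⟩ : ∃ j, m = j + 1 := ⟨m - 1, by omega⟩
  have hq := two_le_qR (k := k)
  have hg := gap_pos H hI hP
  have h4 := le_count H (m := j) (by omega) ⟨hP.1, hd⟩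
  unfold tm
  generalize (Nat.count (fun a => IsP (e a)) (c F) : ℝ) = N at h4 ⊢
  have hj : (127 : ℝ) ≤ j := by exact_mod_cast (by omega : 127 ≤ j)
  clear h3
  push_cast at h1 h2 ⊢
  have h5 := qR_pow_pos (k := k) j
  have hN : 0 < N := by nlinarith
  have h6 : qR k ^ j ≤ (j + 1) * (N + 1) := by nlinarith
  have h7 := Real.log_le_log (by positivity) ((pow_le_pow_left₀ two_pos.le hq j).trans h6)
  rw [Real.log_pow, Real.log_mul (by positivity) (by positivity)] at h7
  have h8 : ((j : ℝ) + 1) / 4 ≤ Real.log (N + 1) := by nlinarith [Real.log_two_gt_d9]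
  have h9 := Real.log_le_log (by positivity) h8
  rw [Real.log_div (by positivity) (by norm_num), show (4 : ℝ) = 2 ^ 2 by norm_num,
    Real.log_pow] at h9
  have h10 : Real.log (j + 1) / 2 ≤ Real.log (Real.log (N + 1)) := by
    push_cast at h9
    linarith [Real.log_two_lt_d9]
  have h11 := Real.rpow_le_rpow (by linarith) h10 hx
  have h12 : 0 < Real.log ((j : ℝ) + 1) ^ x := Real.rpow_pos_of_pos (by linarith) _
  rw [Real.div_rpow (by linarith) two_pos.le] at h11
  have h13 : 0 < Real.log ((j : ℝ) + 1) ^ x / 2 ^ x := by positivity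
  have h14 := h13.trans_le h11
  rw [abs_of_pos (by positivity), ← one_div_mul_one_div, ← one_div_mul_one_div]
  refine mul_le_mul_of_nonneg_right (mul_le_mul ?_ ?_ (by positivity) (by positivity))
    (by positivity)
  · rw [div_le_div_iff₀ (by positivity) (by positivity), pow_succ']
    nlinarith
  · exact (one_div_le_one_div_of_le h13 h11).trans_eq (one_div_div _ _)

theorem summable_tm (hS : StSel) (hM : StMM) (H : Code e c)
    (hI : (Set.ofPred fun m => IsP (e m)).Infinite) {x : ℝ} (hx : 2 < x) :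
    Summable fun m => ∑ F ∈ PrD k m, tm e c x F := by
  obtain ⟨C, hC, hG⟩ := gap_up hS hM H hI (ε := x / 2 - 1) (by linarith)
  refine ((bertrand (y := x / 2) (by linarith)).mul_left
    (qR k * 2 ^ x * C)).of_norm_bounded_eventually_nat ?_
  filter_upwards [hG, ev_log] with m h ⟨h1, h2, h3⟩
  have hq := two_le_qR (k := k)
  have hm : (128 : ℝ) ≤ m := by exact_mod_cast h3
  have hl : 0 < Real.log m := by linarith
  have h4 : ∑ F ∈ PrD k m, 1 / gap e c F =
      qR k ^ m * avm m fun F => if Irreducible F then 1 / gap e c F else 0 := by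
    rw [← sum_MoD, ← Finset.sum_filter]
    refine Finset.sum_congr (Finset.ext fun F => ?_) fun _ _ => rfl
    rw [mem_PrD, Finset.mem_filter, mem_MoD]
    exact ⟨fun g => ⟨⟨g.1.1, g.2⟩, g.1.2⟩, fun g => ⟨⟨g.1.1, g.2⟩, g.1.2⟩⟩
  rw [Real.norm_of_nonneg (Finset.sum_nonneg (f := tm e c x) fun _ _ => abs_nonneg _)]
  refine (Finset.sum_le_sum fun F hF => tm_le H hI (by linarith) h1 h2 h3 hF).trans ?_
  rw [← Finset.mul_sum, h4]
  refine (mul_le_mul_of_nonneg_left (mul_le_mul_of_nonneg_left h (qR_pow_pos m).le)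
    (by have := qR_pow_pos (k := k) m; positivity)).trans_eq ?_
  have e1 : Real.log m ^ x = Real.log m ^ (x / 2) * Real.log m ^ (x / 2) := by
    rw [← Real.rpow_add hl, add_halves]
  have e2 : Real.log m * Real.log m ^ (x / 2 - 1) = Real.log m ^ (x / 2) := by
    rw [Real.rpow_sub_one hl.ne']
    field_simp
  have e3 := Real.rpow_pos_of_pos hl (x / 2)
  have e4 := qR_pow_pos (k := k) m
  rw [e1, e2]
  field_simp

end Up

theorem up {k : Type} [Field k] [Fintype k] [CharP k 2] (hS : StSel) (hM : StMM) (hU : StUni)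
    {e : ℕ → k[X]} {c : k[X] → ℕ} (H : Code e c) {x : ℝ} (hx : 2 < x) :
    Summable fun n : ℕ => (1 : ℝ) / (((n : ℝ) + 3) * Real.log (Real.log ((n : ℝ) + 3)) ^ x *
      ((Nat.nth (fun m => IsP (e m)) (n + 3) : ℝ) - Nat.nth (fun m => IsP (e m)) (n + 2))) := by
  have hI := infinite hU H
  have hs := Up.summable_tm hS hM H hI hx
  have h0 : ∀ F, 0 ≤ Up.tm e c x F := fun _ => abs_nonneg _
  refine Summable.of_abs (summable_of_sum_le (c := ∑' m, ∑ F ∈ PrD k m, Up.tm e c x F)
    (fun _ => abs_nonneg _) fun u => ?_)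
  let a : ℕ → k[X] := fun n => e (Nat.nth (fun m => IsP (e m)) (n + 2))
  have ha : Function.Injective a := fun i j h => by
    have := Nat.nth_injective hI ((H.ce _).symm.trans ((congrArg c h).trans (H.ce _)))
    omega
  refine (Finset.sum_congr rfl (g := fun n => Up.tm e c x (a n)) fun n _ => ?_).trans_le ?_
  · simp only [Up.tm, gap, a, H.ce, Nat.count_nth_of_infinite hI]
    push_cast
    rw [show (n : ℝ) + 2 + 1 = n + 3 by ring]
  rw [← Finset.sum_image ha.injOn, ← Finset.sum_fiberwise_of_maps_to (g := natDegree)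
    (t := (u.image a).image natDegree) fun F hF => Finset.mem_image_of_mem _ hF]
  refine le_trans (Finset.sum_le_sum fun m _ => Finset.sum_le_sum_of_subset_of_nonneg
    (fun F hF => ?_) fun F _ _ => h0 F) (hs.sum_le_tsum _ fun m _ =>
      Finset.sum_nonneg fun F _ => h0 F)
  obtain ⟨h1, h2⟩ := Finset.mem_filter.1 hF
  obtain ⟨n, -, rfl⟩ := Finset.mem_image.1 h1
  exact mem_PrD.2 ⟨Nat.nth_mem_of_infinite hI _, h2⟩

end Pool.Agent.Lib.MP_127c84_nt
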